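import Pool.Agent.OVW.B.Mean

/-! # Block B: B02, splitting of the averages over levels -/

namespace Pool.Agent.OVW

open Classical

set_option linter.unusedSectionVars false

variable {M : Type} [Arith M] [HasWorld M] {R : Set (M → M)} [IsWorld R]

namespace B02

theorem havg_rng_mul {g : M → KK M} (hg : Rec R g) (q a : M) :
    havg (rng (q * a)) g = havg (rng q) (fun j => havg (rng a) (fun i => g (j * a + i))) := by
  unfold havg
  rw [hsum_rng_mul hg]
  simp only [div_eq_mul_inv, card_rng]
  rw [hsum_mul_right (R := R) _ (f := fun j => hsum (rng a) (fun i => g (j * a + i)))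
    (by fun_prop), cK_mul, mul_inv]
  ring

theorem havg_rng_half {g : M → KK M} (hg : Rec R g) {n : M} (hn : 0 < n) :
    2 * havg (rng (n + n)) g = havg (rng n) g + havg (rng n) (fun i => g (n + i)) := by
  have h0 : (0 : KK M) < (n : KK M) := by
    rw [← cK_zero, cK_lt]; exact hn
  unfold havg
  rw [hsum_rng_add hg]
  simp only [card_rng]
  rw [cK_add]
  field_simp
  ring

/-- moving the first `l` letters out of an average over a segment of levels -/
theorem shift {κ l n : M} {f : Wd M → KK M} (hf : Rec R f) :
    havg (rng n) (fun i => havg (W κ (l + i)) f) =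
      havg (W κ l) (fun t => FW κ n (fun y => f (t ++ y))) := by
  unfold FW
  rw [havg_comm (R := R) (S := W κ l) (T := rng n)
    (f := fun t i => havg (W κ i) (fun y => f (t ++ y))) (by fun_prop)]
  exact havg_congr fun i _ => havg_W_add (R := R) κ l i hf

end B02

/-- B02 -/
theorem tB02 (R : Set (M → M)) [IsWorld R] : StmtB02 R := by
  refine ⟨?_, ?_, ?_⟩
  · intro κ a q f _ _ _ hf
    have h1 : FW κ (a * q) f = havg (rng (q * a)) (fun l => havg (W κ l) f) := by
      rw [mul_comm q a]; rfl
    rw [h1, B02.havg_rng_mul (R := R) (by fun_prop)]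
    refine havg_congr fun j _ => ?_
    rw [mul_comm a j]
    exact B02.shift hf
  · intro κ n f _ hn hf
    have h1 : FW κ (n + n) f = havg (rng (n + n)) (fun l => havg (W κ l) f) := rfl
    rw [h1, B02.havg_rng_half (R := R) (by fun_prop) hn, B02.shift (R := R) hf]
    rfl
  · intro Ω _ S κ n f hf
    unfold FW
    rw [havg_comm (R := R) (S := S) (T := rng n)
      (f := fun ω l => havg (W κ l) (f ω)) (by fun_prop)]
    refine havg_congr fun l _ => ?_
    exact havg_comm (R := R) hf

end Pool.Agent.OVW
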