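import Pool.Agent.OVW.StmtsB5c

/-!
# Block B, module B04: insensitive sets
-/

namespace Pool.Agent.OVW

open Classical

set_option linter.unusedSectionVars false

theorem tB04 (M : Type) [Arith M] [HasWorld M] : StmtB04 M := by
  intro k a n H _ hH
  have hmono : ∀ (l n' : M) (t : Wd M), t ∈ W (k + 1) l → l + n' ≤ n → ∀ x ∈ Wlt (k + 1) n',
      t ++ x ∈ Wlt (k + 1) n := by
    intro l n' t ht hl x hx
    obtain ⟨l', hl', hx'⟩ := mem_Wlt_iff.1 hx
    exact mem_Wlt_iff.2 ⟨l + l', lt_of_lt_of_le (add_lt_add_right hl' l) hl,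
      append_mem_W ht hx'⟩
  refine ⟨?_, ?_, ?_, ?_⟩
  · intro l n' t ht hl x hx y hy hxy h
    refine hH _ (hmono l n' t ht hl x hx) _ (hmono l n' t ht hl y hy) ?_ h
    rw [wsub_append, wsub_append, hxy]
  · intro x hx y hy hxy h h'
    exact h (hH y hy x hx hxy.symm h')
  · intro n' hn x hx y hy hxy h
    have hsub : ∀ z ∈ Wlt (k + 1) n', z ∈ Wlt (k + 1) n := by
      intro z hz
      obtain ⟨h1, h2⟩ := mem_Wlt.1 hz
      exact mem_Wlt.2 ⟨lt_of_lt_of_le h1 hn, h2⟩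
    exact hH x (hsub x hx) y (hsub y hy) hxy h
  · intro H' hH' x hx y hy hxy h
    exact ⟨hH x hx y hy hxy h.1, hH' x hx y hy hxy h.2⟩

end Pool.Agent.OVW
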