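import Pool.Agent.OVW.B.Mean

/-! # Block B, C5: the core of Lemma 5 -/

namespace Pool.Agent.OVW

open Classical

set_option linter.unusedSectionVars false

variable {M : Type} [Arith M] [HasWorld M] {R : Set (M → M)} [IsWorld R]

namespace C5

theorem hpr_Cv (h56 : StmtC56 R) {k a N h0 sig r : M} {H : FSet M (Wd M)} {ψ : Wd M → KK M}
    {u s e : KK M} (hC : Core R k a N H ψ u s e) (hh0 : 0 < h0) (hN : sig + h0 + r = N)
    {τ : Wd M} (hτ : τ ∈ W (k + 1) sig) {y : Wd M} (hy : y ∈ Wlt (k + 1) (r + N)) :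
    hpr (W (k + 1) h0) (fun t => Cv k h0 H ψ u τ t y) =
      ((k + 1 : M) : KK M) / hpow (k + 1) h0 * ind M (Gd k h0 H ψ u τ y) := by
  have hκ : 0 < k + 1 := lt_succ.2 (zero_le' k)
  have h := h56 k a N h0 sig r H ψ u s e hC hh0 hN τ hτ y hy (fun _ => 1) (by fun_prop)
  have h2 : hpr (W (k + 1) h0) (fun t => Cv k h0 H ψ u τ t y) =
    havg (W (k + 1) h0) (fun t => if Cv k h0 H ψ u τ t y then (fun _ : Wd M => (1 : KK M)) t
      else 0) := rfl
  rw [h2, h]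
  congr 1
  by_cases hG : Gd k h0 H ψ u τ y
  · rw [if_pos hG, ind_true hG]
    exact havg_const 1 ⟨0, mem_rng.2 hκ⟩
  · rw [if_neg hG, ind_false hG]

theorem wsub_append_const {k : M} {w y0 : Wd M} {r : M} (hy0 : y0 ∈ W (k + 1) r) (d : M) :
    wsub (k + 1) (w ++ y0) d = wsub (k + 1) w d ++ y0 := by
  rw [wsub_append, wsub_of_no_var (u := y0)]
  intro i hi h
  rw [mem_W] at hy0
  rw [hy0.1] at hi
  have := hy0.2 i hi
  rw [h] at this
  exact lt_irrefl _ this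

end C5

open C5 in
theorem tC5 (R : Set (M → M)) [IsWorld R] (_h4 : StmtB04 M) (h51 : StmtC51 R) (h52 : StmtC52 R)
    (h53 : StmtC53 R) (h54 : StmtC54 R) (h55 : StmtC55 R) (h56 : StmtC56 R) (h57 : StmtC57 R)
    (h58 : StmtC58 R) (_hB1 : StmtB01 R) : StmtC5 R := by
  intro k a N h h0 q H ψ u s e c eps hC hc hc1 hcs heps heps1 hu2 hh hD hh0 hh0b hNq he h16 h2e
  have hκ : 0 < k + 1 := lt_succ.2 (zero_le' k)
  have hψ : Rec R ψ := hC.recpsi
  have hNpos := hC.Npos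
  obtain ⟨-, h51b⟩ := h51 k a N H ψ u s e hC
  obtain ⟨sig, r, hN, hwin⟩ := h52 k a N h0 q H ψ u s e hC hNq
  have h53' := h53 k a N h0 sig r H ψ u s e c hC hh0 hN hc hc1 hcs he h16 hwin h51b
  have h54' := h54 k a N h h0 sig r H ψ u s e c hC hh0 hN hc hc1 hh hD hh0b h53'
  have hpw : (0 : KK M) < hpow (k + 1) h0 := by
    rw [← cK_zero, cK_lt]
    exact hpow_pos hκ _
  have hk1 : (0 : KK M) < ((k + 1 : M) : KK M) := by
    rw [← cK_zero, cK_lt]
    exact hκ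
  have hf0 : (0 : KK M) < ((k + 1 : M) : KK M) / hpow (k + 1) h0 := div_pos hk1 hpw
  have hb : ((k + 1 : M) : KK M) / hpow (k + 1) h0 * (c ^ 2 / 16) ≤
      havg (W (k + 1) sig) (fun τ => nu k r N (fun y' =>
        hpr (W (k + 1) h0) (fun t => Cv k h0 H ψ u τ t y'))) := by
    have e1 : havg (W (k + 1) sig) (fun τ => nu k r N (fun y' =>
        hpr (W (k + 1) h0) (fun t => Cv k h0 H ψ u τ t y'))) =
        ((k + 1 : M) : KK M) / hpow (k + 1) h0 *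
          havg (W (k + 1) sig) (fun τ => nu k r N (fun y' => ind M (Gd k h0 H ψ u τ y'))) := by
      rw [← (mean_W R hκ sig).smul _ _ (by fun_prop)]
      refine havg_congr fun τ hτ => ?_
      rw [← (mean_nu R k r hNpos).smul _ _ (by fun_prop)]
      exact (mean_nu R k r hNpos).congr _ _ fun y hy => hpr_Cv h56 hC hh0 hN hτ hy.1
    rw [e1]
    exact mul_le_mul_of_nonneg_left h54' hf0.le
  have hbpos : 0 < ((k + 1 : M) : KK M) / hpow (k + 1) h0 * (c ^ 2 / 16) := by positivity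
  have h57' := h57 k a N h0 sig r H ψ u s e eps _ hC hh0 hN heps hbpos h2e h51b hb
  obtain ⟨τ, hτ, p, hp, y0, hy0, hfin⟩ := h58 k a N h0 sig r H ψ u s e eps (c ^ 2 / 16) hC hh0 hN
    heps (by positivity) h54' h57'
  have hcard : (0 : KK M) < (Prs k h0).card := card_cast_pos ⟨p, hp⟩
  -- words
  have hlong : ∀ y ∈ Wlt (k + 1) N, y0 ++ y ∈ Wlt (k + 1) (r + N) := by
    intro y hy
    obtain ⟨l, hl, hy⟩ := mem_Wlt_iff.1 hy
    exact mem_Wlt_iff.2 ⟨r + l, add_lt_add_right hl r, append_mem_W hy0 hy⟩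
  -- an actual line
  obtain ⟨y1, hy1, hv⟩ := (mean_FW R hκ hNpos).ex _ (by fun_prop :
    Rec R (fun y => if Gd k h0 H ψ u τ (y0 ++ y) ∧ Lm k h0 H ψ u τ (y0 ++ y) = p then
      havg (rng (k + 1)) (fun d => ψ (τ ++ (p.1 ++ wsing d ++ wsub (k + 1) p.2 d) ++ (y0 ++ y))) -
        (u - 2 * eps) else 0))
  have hpos : 0 < eps * (c ^ 2 / 16) / (Prs k h0).card := by positivity
  have hG1 : Gd k h0 H ψ u τ (y0 ++ y1) ∧ Lm k h0 H ψ u τ (y0 ++ y1) = p := by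
    by_contra hno
    simp only [if_neg hno] at hv
    linarith
  have hPP := ((h55 k a N h0 sig r H ψ u s e hC hh0 hN τ hτ _ (hlong y1 hy1) _ (hlong y1 hy1)
    rfl).2.2.2.1 hG1.1).2
  rw [hG1.2] at hPP
  obtain ⟨hQ, hlen, -⟩ := hPP
  unfold Prs at hp
  obtain ⟨hp1, hp2⟩ := mem_prod.1 hp
  obtain ⟨l1, hl1, hp1'⟩ := mem_Wlt_iff.1 hp1
  obtain ⟨l2, hl2, hp2'⟩ := mem_Wlt_iff.1 hp2
  have e1 : p.1.len = l1 := (mem_W.1 hp1').1
  have e2 : p.2.len = l2 := (mem_W.1 hp2').1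
  have e3 : y0.len = r := (mem_W.1 hy0).1
  have e4 : τ.len = sig := (mem_W.1 hτ).1
  have hword : ∀ y d, τ ++ p.1 ++ wsing d ++ wsub (k + 1) (p.2 ++ y0) d ++ y =
      τ ++ (p.1 ++ wsing d ++ wsub (k + 1) p.2 d) ++ (y0 ++ y) := by
    intro y d
    rw [wsub_append_const hy0]
    simp only [append_assoc]
  have hfilt : ∀ y, y ∈ (Wlt (k + 1) N).filter
      (fun y => Gd k h0 H ψ u τ (y0 ++ y) ∧ Lm k h0 H ψ u τ (y0 ++ y) = p) ↔
      y ∈ Wlt (k + 1) N ∧ Gd k h0 H ψ u τ (y0 ++ y) ∧ Lm k h0 H ψ u τ (y0 ++ y) = p :=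
    fun y => mem_filter (R := R) (by fun_prop)
  refine ⟨τ ++ p.1, hQ.1, ?_, hQ.2, p.2 ++ y0, ?_, ?_, (Wlt (k + 1) N).filter
    (fun y => Gd k h0 H ψ u τ (y0 ++ y) ∧ Lm k h0 H ψ u τ (y0 ++ y) = p), ?_, ?_, ?_, ?_⟩
  · refine mem_Wlt_iff.2 ⟨sig + l1, ?_, append_mem_W hτ hp1'⟩
    rw [← hN]
    exact lt_of_lt_of_le (add_lt_add_right hl1 sig) le_self_add
  · refine mem_Wlt_iff.2 ⟨l2 + r, ?_, append_mem_W hp2' (W_mono le_self_add _ hy0)⟩
    rw [← hN, add_assoc]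
    exact lt_of_lt_of_le (add_lt_add_left hl2 r) le_add_self
  · rw [len_append, len_append, e1, e2, e3, e4, ← hN, ← hlen, e1, e2]
    ring
  · intro y hy
    exact ((hfilt y).1 hy).1
  · intro x hx y hy hxy hxm
    rw [hfilt] at hxm ⊢
    have h5 := h55 k a N h0 sig r H ψ u s e hC hh0 hN τ hτ _ (hlong x hx) _ (hlong y hy)
      (by rw [wsub_append, wsub_append, hxy])
    exact ⟨hy, h5.1 hxm.2.1, by rw [← h5.2.1]; exact hxm.2.2⟩
  · intro y hy d hd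
    obtain ⟨hy2, hG, hL⟩ := (hfilt y).1 hy
    have h5 := ((h55 k a N h0 sig r H ψ u s e hC hh0 hN τ hτ _ (hlong y hy2) _ (hlong y hy2)
      rfl).2.2.2.1 hG).2
    rw [hL] at h5
    rw [hword]
    exact h5.2.2 d hd
  · refine le_trans (le_of_eq ?_) (hfin.trans (le_of_eq ?_))
    · ring
    · unfold score
      refine (mean_FW R hκ hNpos).congr _ _ fun y hy => ?_
      by_cases hc3 : Gd k h0 H ψ u τ (y0 ++ y) ∧ Lm k h0 H ψ u τ (y0 ++ y) = p
      · rw [if_pos hc3]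
        show _ = if _ then _ else _
        rw [if_pos ((hfilt y).2 ⟨hy, hc3⟩)]
        simp only [hword]
      · rw [if_neg hc3]
        show _ = if _ then _ else _
        rw [if_neg (fun h => hc3 ((hfilt y).1 h).2)]

end Pool.Agent.OVW
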