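import Pool.Agent.OVW.B.Mean

/-! # C1: the two halves -/

namespace Pool.Agent.OVW

open Classical

set_option linter.unusedSectionVars false

variable {M : Type} [Arith M] [HasWorld M]

namespace C51

variable {R : Set (M → M)} [IsWorld R]

/-- The mean of `φ` over a translate of the words of length `< N` is at most `s + e`. -/
theorem half {k a N : M} {H : FSet M (Wd M)} {ψ : Wd M → KK M} {u s e : KK M}
    (hC : Core R k a N H ψ u s e) (h4 : StmtB04 M) {l : M} (hl : l ≤ N) {t : Wd M}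
    (ht : t ∈ W (k + 1) l) : FW (k + 1) N (fun y => phi5 H ψ u (t ++ y)) ≤ s + e := by
  have hκ : 0 < k + 1 := lt_succ.2 (zero_le' k)
  have hpsi := hC.recpsi
  have hmem : ∀ y, y ∈ (Wlt (k + 1) N).filter (fun y => t ++ y ∈ H) ↔
      y ∈ Wlt (k + 1) N ∧ t ++ y ∈ H := fun y => mem_filter (R := R) (by fun_prop)
  have hins : Ins k a N (fun y => t ++ y ∈ H) :=
    (h4 k a (N + N) (fun x => x ∈ H) hC.alt hC.ins).1 l N t ht (add_le_add_left hl N)
  have hmax := hC.max l hl t ht ((Wlt (k + 1) N).filter (fun y => t ++ y ∈ H))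
    (fun y hy => ((hmem y).1 hy).1)
    (fun x hx y hy hxy h => (hmem y).2 ⟨hy, hins x hx y hy hxy ((hmem x).1 h).2⟩)
    (fun y hy => ((hmem y).1 hy).2)
  refine le_trans (le_of_eq ?_) hmax
  refine (mean_FW R hκ hC.Npos).congr _ _ fun y hy => ?_
  unfold phi5
  by_cases h : t ++ y ∈ H
  · rw [if_pos h, if_pos ((hmem y).2 ⟨hy, h⟩)]
  · rw [if_neg h, if_neg (fun h' => h ((hmem y).1 h').2)]

end C51

/-- C1 -/
theorem tC51 (R : Set (M → M)) [IsWorld R] (_h1 : StmtB01 R) (h2 : StmtB02 R) (h4 : StmtB04 M) :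
    StmtC51 R := by
  intro k a N H ψ u s e hC
  have hκ : 0 < k + 1 := lt_succ.2 (zero_le' k)
  have hpsi := hC.recpsi
  have hrec : Rec R (phi5 H ψ u) := by fun_prop
  have hsp := h2.2.1 (k + 1) N (phi5 H ψ u) hκ hC.Npos hrec
  have hs : s ≤ FW (k + 1) (N + N) (phi5 H ψ u) := hC.score
  have hA : FW (k + 1) N (phi5 H ψ u) ≤ s + e := by
    have h := C51.half hC h4 (zero_le' N) (wnil_mem_W (k + 1))
    simpa only [nil_append] using h
  have hB : havg (W (k + 1) N) (fun t => FW (k + 1) N (fun y => phi5 H ψ u (t ++ y))) ≤ s + e :=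
    havg_le (R := R) (by fun_prop) (W_nonempty hκ N) fun t ht => C51.half hC h4 le_rfl ht
  constructor <;> linarith

end Pool.Agent.OVW
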