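import Pool.Agent.OVW.B.Mean

/-! # Block B, Lemma 5: the window (C2) -/

namespace Pool.Agent.OVW

open Classical

set_option linter.unusedSectionVars false

variable {M : Type} [Arith M] [HasWorld M]

namespace C52

theorem rec_phi5 {R : Set (M → M)} [IsWorld R] (H : FSet M (Wd M)) {ψ : Wd M → KK M}
    (hψ : Rec R ψ) (u : KK M) : Rec R (phi5 H ψ u) := by
  unfold phi5
  fun_prop

end C52

theorem tC52 (R : Set (M → M)) [IsWorld R] (_h1 : StmtB01 R) (h2 : StmtB02 R) (h3 : StmtC51 R) :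
    StmtC52 R := by
  intro k a N h0 q H ψ u s e hC hN
  have hrec : Rec R (phi5 H ψ u) := C52.rec_phi5 H hC.recpsi u
  have hNpos : 0 < h0 * q := hN ▸ hC.Npos
  have hq : 0 < q := by
    rcases (zero_le' q).eq_or_lt with h | h
    · rw [← h, mul_zero] at hNpos
      exact absurd hNpos (lt_irrefl _)
    · exact h
  have hh0 : 0 < h0 := by
    rcases (zero_le' h0).eq_or_lt with h | h
    · rw [← h, zero_mul] at hNpos
      exact absurd hNpos (lt_irrefl _)
    · exact h
  have hk : 0 < k + 1 := lt_succ.2 (zero_le' k)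
  have hC1 := (h3 k a N H ψ u s e hC).1
  rw [hN, h2.1 (k + 1) h0 q (phi5 H ψ u) hk hh0 hq hrec] at hC1
  obtain ⟨j, hj, hj2⟩ := (mean_rng R hq).ex_ge
    (f := fun j => havg (W (k + 1) (h0 * j))
      (fun t => FW (k + 1) h0 (fun y => phi5 H ψ u (t ++ y)))) (by fun_prop) hC1
  have hjq : j + 1 ≤ q := succ_le.2 (mem_rng.1 hj)
  obtain ⟨d, hd⟩ := exists_add_of_le hjq
  refine ⟨h0 * j, h0 * d, ?_, hj2⟩
  rw [hN, hd]
  ring

end Pool.Agent.OVW
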