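import Pool.Agent.OVW.B.Mean

/-! # Block B, C53: the future -/

namespace Pool.Agent.OVW

open Classical

set_option linter.unusedSectionVars false

variable {M : Type} [Arith M] [HasWorld M] {R : Set (M → M)} [IsWorld R]

namespace C53

theorem phi5_le_QQ {H : FSet M (Wd M)} {ψ : Wd M → KK M} {u : KK M} (h1 : ∀ x, ψ x ≤ 1)
    (hu : 0 ≤ u) (τ x : Wd M) : phi5 H ψ u (τ ++ x) ≤ ind M (QQ H ψ u τ x) := by
  unfold phi5
  by_cases h : τ ++ x ∈ H
  · rw [if_pos h]
    by_cases h2 : u ≤ ψ (τ ++ x)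
    · rw [ind_true (show QQ H ψ u τ x from ⟨h, h2⟩)]
      linarith [h1 (τ ++ x)]
    · rw [ind_false (fun h3 : QQ H ψ u τ x => h2 h3.2)]
      linarith [not_le.1 h2]
  · rw [if_neg h]
    exact ind_nonneg _

theorem phi5_le_mem {H : FSet M (Wd M)} {ψ : Wd M → KK M} {u : KK M} (h1 : ∀ x, ψ x ≤ 1)
    (hu : 0 ≤ u) (x : Wd M) : phi5 H ψ u x ≤ ind M (x ∈ H) := by
  unfold phi5
  by_cases h : x ∈ H
  · rw [if_pos h, ind_true h]
    linarith [h1 x]
  · rw [if_neg h]
    exact ind_nonneg _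

/-- Fubini for `nu`. -/
theorem nu_comm (h2 : StmtB02 R) {Ω : Type} [Cod M Ω] (S : FSet M Ω) (k r N : M)
    {f : Ω → Wd M → KK M} (hf : Rec R (fun x : Ω × Wd M => f x.1 x.2)) :
    nu k r N (fun y => havg S (fun ω => f ω y)) = havg S (fun ω => nu k r N (f ω)) := by
  unfold nu
  have e : ∀ y0 ∈ W (k + 1) r, FW (k + 1) N (fun y => havg S (fun ω => f ω (y0 ++ y))) =
      havg S (fun ω => FW (k + 1) N (fun y => f ω (y0 ++ y))) := by
    intro y0 _
    exact (h2.2.2 Ω S (k + 1) N (fun ω y => f ω (y0 ++ y)) (by fun_prop)).symm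
  rw [havg_congr e]
  exact havg_comm (R := R) (f := fun y0 ω => FW (k + 1) N (fun y => f ω (y0 ++ y))) (by fun_prop)

/-- The future is not larger than the maximal score. -/
theorem future_le {k a N : M} {H : FSet M (Wd M)} {ψ : Wd M → KK M} {u s e : KK M}
    (h4 : StmtB04 M) (hC : Core R k a N H ψ u s e) {h0 sig r : M} (hN : sig + h0 + r = N)
    {τ t : Wd M} (hτ : τ ∈ W (k + 1) sig) (ht : t ∈ W (k + 1) h0) :
    nu k r N (fun y => phi5 H ψ u (τ ++ t ++ y)) ≤ s + e := by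
  have hκ : 0 < k + 1 := lt_succ.2 (zero_le' k)
  have hψ : Rec R ψ := hC.recpsi
  unfold nu
  refine havg_le (R := R) (by fun_prop) (W_nonempty hκ r) ?_
  intro y0 hy0
  have hT : τ ++ t ++ y0 ∈ W (k + 1) (sig + h0 + r) := append_mem_W (append_mem_W hτ ht) hy0
  have hr : Rec R (fun y : Wd M => τ ++ t ++ y0 ++ y ∈ H) := by fun_prop
  have hmem : ∀ y, y ∈ (Wlt (k + 1) N).filter (fun y => τ ++ t ++ y0 ++ y ∈ H) ↔
      y ∈ Wlt (k + 1) N ∧ τ ++ t ++ y0 ++ y ∈ H := fun y => mem_filter hr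
  have h5 := (h4 k a (N + N) (fun x => x ∈ H) hC.alt hC.ins).1 (sig + h0 + r) N _ hT
    (by rw [hN])
  have h6 := hC.max (sig + h0 + r) (by rw [hN]) _ hT
    ((Wlt (k + 1) N).filter (fun y => τ ++ t ++ y0 ++ y ∈ H))
    (fun y hy => ((hmem y).1 hy).1)
    (by
      intro x hx y hy hxy hx2
      rw [hmem] at hx2 ⊢
      exact ⟨hy, h5 x hx y hy hxy hx2.2⟩)
    (fun y hy => ((hmem y).1 hy).2)
  refine le_trans (le_of_eq ?_) h6
  unfold score
  refine (mean_FW R hκ hC.Npos).congr _ _ fun y hy => ?_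
  show phi5 H ψ u (τ ++ t ++ (y0 ++ y)) = if y ∈ (Wlt (k + 1) N).filter
    (fun y => τ ++ t ++ y0 ++ y ∈ H) then ψ (τ ++ t ++ y0 ++ y) - u else 0
  rw [← append_assoc (τ ++ t) y0 y]
  unfold phi5
  by_cases h : τ ++ t ++ y0 ++ y ∈ H
  · rw [if_pos h, if_pos ((hmem y).2 ⟨hy, h⟩)]
  · rw [if_neg h, if_neg (fun h' => h ((hmem y).1 h').2)]

/-- The mean over the words of length `N` followed by a word of length `< N`. -/
theorem second_half {k N h0 sig r : M} (hN : sig + h0 + r = N) {F : Wd M → KK M}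
    (hF : Rec R F) :
    havg (W (k + 1) N) (fun t => FW (k + 1) N (fun y => F (t ++ y))) =
      havg (W (k + 1) sig) (fun τ => havg (W (k + 1) h0) (fun t =>
        nu k r N (fun y => F (τ ++ t ++ y)))) := by
  have e1 : havg (W (k + 1) N) (fun t => FW (k + 1) N (fun y => F (t ++ y))) =
      havg (W (k + 1) (sig + h0)) (fun v => havg (W (k + 1) r) (fun y0 =>
        FW (k + 1) N (fun y => F (v ++ y0 ++ y)))) := by
    conv_lhs => rw [← hN]
    rw [hN]
    have := havg_W_add (R := R) (f := fun t => FW (k + 1) N (fun y => F (t ++ y))) (k + 1)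
      (sig + h0) r (by fun_prop)
    rw [hN] at this
    exact this
  rw [e1, havg_W_add (R := R) (k + 1) sig h0 (by fun_prop)]
  refine havg_congr fun τ _ => havg_congr fun t _ => ?_
  unfold nu
  simp only [append_assoc]

/-- The triples `(τ, l, t)`. -/
noncomputable def PT (k sig h0 : M) : FSet M (Wd M × M × Wd M) :=
  (W (k + 1) sig).prod ((rng h0).prod (W (k + 1) h0))

theorem havgP {k sig h0 : M} {F : Wd M × M × Wd M → KK M} (hF : Rec R F) :
    havg (PT k sig h0) F = havg (W (k + 1) sig) (fun τ => havg (rng h0) (fun l =>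
      havg (W (k + 1) h0) (fun t => F (τ, l, t)))) := by
  unfold PT
  rw [havg_prod hF]
  refine havg_congr fun τ _ => ?_
  rw [havg_prod (R := R) (f := fun b => F (τ, b)) (by fun_prop)]

theorem mem_PT {k sig h0 : M} {x : Wd M × M × Wd M} : x ∈ PT k sig h0 ↔
    x.1 ∈ W (k + 1) sig ∧ x.2.1 < h0 ∧ x.2.2 ∈ W (k + 1) h0 := by
  unfold PT
  rw [mem_prod, mem_prod, mem_rng]

theorem PT_nonempty (k sig : M) {h0 : M} (h : 0 < h0) : ∃ x, x ∈ PT k sig h0 := by
  have hκ : 0 < k + 1 := lt_succ.2 (zero_le' k)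
  obtain ⟨τ, hτ⟩ := W_nonempty hκ sig
  obtain ⟨t, ht⟩ := W_nonempty hκ h0
  exact ⟨(τ, 0, t), mem_PT.2 ⟨hτ, h, ht⟩⟩

/-- The indicators of the beginnings. -/
theorem window {k h0 sig : M} (hh0 : 0 < h0) {H : FSet M (Wd M)} {ψ : Wd M → KK M}
    (hψ : Rec R ψ) (h1 : ∀ x, ψ x ≤ 1) {u : KK M} (hu : 0 ≤ u) :
    havg (W (k + 1) sig) (fun τ => FW (k + 1) h0 (fun x => phi5 H ψ u (τ ++ x))) ≤
      havg (PT k sig h0) (fun x => ind M (QQ H ψ u x.1 (x.2.2.take x.2.1))) := by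
  have hκ : 0 < k + 1 := lt_succ.2 (zero_le' k)
  rw [havgP (R := R) (by fun_prop)]
  refine (mean_W R hκ sig).mono (by fun_prop) (by fun_prop) fun τ _ => ?_
  have e : havg (rng h0) (fun l => havg (W (k + 1) h0) (fun t => ind M (QQ H ψ u τ (t.take l)))) =
      FW (k + 1) h0 (fun x => ind M (QQ H ψ u τ x)) := by
    unfold FW
    refine havg_congr fun l hl => ?_
    exact havg_W_take (R := R) (f := fun x => ind M (QQ H ψ u τ x)) hκ (mem_rng.1 hl).le
      (by fun_prop)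
  refine le_trans ?_ (le_of_eq e.symm)
  exact (mean_FW R hκ hh0).mono (by fun_prop) (by fun_prop) fun x _ => phi5_le_QQ h1 hu τ x

theorem swap (h2 : StmtB02 R) {k h0 sig r N : M} {p : Wd M → M → Wd M → Wd M → Prop}
    (hp : Rec R (fun x : Wd M × M × Wd M × Wd M => p x.1 x.2.1 x.2.2.1 x.2.2.2)) :
    havg (W (k + 1) sig) (fun τ => nu k r N (fun y' => havg (rng h0) (fun l =>
      hpr (W (k + 1) h0) (fun t => p τ l t y')))) =
    havg (PT k sig h0) (fun x => nu k r N (fun y' => ind M (p x.1 x.2.1 x.2.2 y'))) := by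
  rw [havgP (R := R) (by fun_prop)]
  refine havg_congr fun τ _ => ?_
  rw [nu_comm (R := R) h2 (rng h0) k r N
    (f := fun l y' => hpr (W (k + 1) h0) (fun t => p τ l t y')) (by fun_prop)]
  refine havg_congr fun l _ => ?_
  exact nu_comm (R := R) h2 (W (k + 1) h0) k r N (f := fun t y' => ind M (p τ l t y'))
    (by fun_prop)

end C53

open C53 in
theorem tC53 (R : Set (M → M)) [IsWorld R] (_h1 : StmtB01 R) (h2 : StmtB02 R) (h4 : StmtB04 M) :
    StmtC53 R := by
  intro k a N h0 sig r H ψ u s e c hC hh0 hN hc hc1 hcs he h16 hwin hsec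
  have hκ : 0 < k + 1 := lt_succ.2 (zero_le' k)
  have hψ : Rec R ψ := hC.recpsi
  have hNpos := hC.Npos
  have mP : Mean R (fun x => x ∈ PT k sig h0) (havg (PT k sig h0)) :=
    mean_havg R (PT_nonempty k sig hh0)
  obtain ⟨f, hfd⟩ : ∃ f : Wd M → Wd M → KK M, f = fun τ t =>
      nu k r N (fun y => phi5 H ψ u (τ ++ t ++ y)) := ⟨_, rfl⟩
  have hf : Rec R (fun p : Wd M × Wd M => f p.1 p.2) := by
    rw [hfd]
    fun_prop
  have hfle : ∀ τ ∈ W (k + 1) sig, ∀ t ∈ W (k + 1) h0, f τ t ≤ s + e := by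
    intro τ hτ t ht
    rw [hfd]
    exact future_le h4 hC hN hτ ht
  -- the mean of `f`
  have ha : s - e ≤ havg (PT k sig h0) (fun x => f x.1 x.2.2) := by
    rw [second_half (R := R) hN (F := phi5 H ψ u) (by fun_prop)] at hsec
    refine hsec.trans (le_of_eq ?_)
    rw [havgP (R := R) (by fun_prop)]
    refine havg_congr fun τ _ => ?_
    rw [hfd]
    exact ((mean_rng R hh0).const _).symm
  -- the probability of `s / 2 ≤ f`
  have hb : havg (PT k sig h0) (fun x => f x.1 x.2.2) ≤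
      s / 2 + (s / 2 + e) * havg (PT k sig h0) (fun x => ind M (s / 2 ≤ f x.1 x.2.2)) := by
    rw [← mP.smul (s / 2 + e) _ (by fun_prop), add_comm, ← mP.add_const (by fun_prop)]
    refine mP.mono (by fun_prop) (by fun_prop) fun x hx => ?_
    obtain ⟨hx1, -, hx3⟩ := mem_PT.1 hx
    by_cases h : s / 2 ≤ f x.1 x.2.2
    · rw [ind_true h]
      have := hfle _ hx1 _ hx3
      linarith
    · rw [ind_false h]
      have := not_le.1 h
      linarith
  have hg : 1 - c / 4 ≤ havg (PT k sig h0) (fun x => ind M (s / 2 ≤ f x.1 x.2.2)) := by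
    by_contra hlt
    rw [not_le] at hlt
    have h3 : s - e ≤ s / 2 + (s / 2 + e) * (1 - c / 4) :=
      (ha.trans hb).trans (by nlinarith)
    nlinarith
  -- the probability of the beginnings
  have hq : c / 2 ≤ havg (PT k sig h0) (fun x => ind M (QQ H ψ u x.1 (x.2.2.take x.2.1))) := by
    have h3 := hwin.trans (window hh0 hψ hC.psi1 hC.u0)
    nlinarith
  rw [swap (R := R) h2 (p := fun τ l t y' => QQ H ψ u τ (t.take l) ∧ τ ++ t ++ y' ∈ H)
    (by fun_prop)]
  have hfin : havg (PT k sig h0) (fun x => s / 2 * (ind M (QQ H ψ u x.1 (x.2.2.take x.2.1)) +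
      ind M (s / 2 ≤ f x.1 x.2.2) - 1)) ≤ havg (PT k sig h0) (fun x => nu k r N (fun y' =>
        ind M (QQ H ψ u x.1 (x.2.2.take x.2.1) ∧ x.1 ++ x.2.2 ++ y' ∈ H))) := by
    refine mP.mono (by fun_prop) (by fun_prop) fun x hx => ?_
    have h0 : 0 ≤ nu k r N (fun y' =>
        ind M (QQ H ψ u x.1 (x.2.2.take x.2.1) ∧ x.1 ++ x.2.2 ++ y' ∈ H)) :=
      (mean_nu R k r hNpos).nonneg (by fun_prop) fun _ _ => ind_nonneg _
    have hs : 0 < s := lt_of_lt_of_le hc hcs
    by_cases hQ : QQ H ψ u x.1 (x.2.2.take x.2.1)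
    · by_cases hG : s / 2 ≤ f x.1 x.2.2
      · rw [ind_true hQ, ind_true hG]
        have h5 : f x.1 x.2.2 ≤ nu k r N (fun y' =>
            ind M (QQ H ψ u x.1 (x.2.2.take x.2.1) ∧ x.1 ++ x.2.2 ++ y' ∈ H)) := by
          rw [hfd]
          refine (mean_nu R k r hNpos).mono (by fun_prop) (by fun_prop) fun y _ => ?_
          rw [ind_and, ind_true hQ, one_mul]
          exact phi5_le_mem hC.psi1 hC.u0 _
        linarith
      · rw [ind_false hG]
        have := ind_le_one (M := M) (QQ H ψ u x.1 (x.2.2.take x.2.1))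
        nlinarith
    · rw [ind_false hQ]
      have := ind_le_one (M := M) (s / 2 ≤ f x.1 x.2.2)
      nlinarith
  refine le_trans ?_ hfin
  rw [mP.smul _ _ (by fun_prop), mP.sub_const (by fun_prop), mP.add _ _ (by fun_prop) (by fun_prop)]
  nlinarith

end Pool.Agent.OVW
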