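import Pool.Agent.OVW.B.Mean

/-!
# C54: there is a line with positive probability
-/

namespace Pool.Agent.OVW

open Classical

set_option linter.unusedSectionVars false

variable {M : Type} [Arith M] [HasWorld M] (R : Set (M → M)) [IsWorld R]

namespace C54

/-- The probability `β_l` of the paper. -/
noncomputable def bt (k h0 : M) (H : FSet M (Wd M)) (ψ : Wd M → KK M) (u : KK M) (τ y' : Wd M)
    (l : M) : KK M :=
  hpr (W (k + 1) h0) (fun t => QQ H ψ u τ (t.take l) ∧ τ ++ t ++ y' ∈ H)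

@[fun_prop] theorem rec_bt {R : Set (M → M)} [IsWorld R] {γ : Type} [Cod M γ] {k h0 : γ → M}
    {H : γ → FSet M (Wd M)} {ψ : γ → Wd M → KK M} {u : γ → KK M} {τ y : γ → Wd M} {l : γ → M}
    (h01 : Rec R k) (h02 : Rec R h0) (h1 : Rec R H) (h2 : Rec R (fun p : γ × Wd M => ψ p.1 p.2))
    (h3 : Rec R u) (h5 : Rec R τ) (h4 : Rec R y) (h6 : Rec R l) :
    Rec R (fun z => bt (k z) (h0 z) (H z) (ψ z) (u z) (τ z) (y z) (l z)) := by
  unfold bt; fun_prop

theorem bt_le_one {k h0 : M} {H : FSet M (Wd M)} {ψ : Wd M → KK M} (hψ : Rec R ψ) {u : KK M}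
    {τ y' : Wd M} (l : M) : bt k h0 H ψ u τ y' l ≤ 1 := by
  unfold bt
  exact hpr_le_one (R := R) (by fun_prop)

/-- The levels with large `β_l`. -/
theorem exists_levels {h0 : M} (hh0 : 0 < h0) {β : KK M} (hβ : 0 ≤ β) {f : M → KK M}
    (hf : Rec R f) (h1 : ∀ l, f l ≤ 1) (hm : β + β ≤ havg (rng h0) f) :
    ∃ L : FSet M M, (∀ l ∈ L, l < h0 ∧ β ≤ f l) ∧ β * h0 ≤ L.card := by
  have h2 := (mean_rng R hh0).markov hf (c := β) (d := β) hβ (fun l _ => h1 l) hm
  have hp : Rec R (fun l => β ≤ f l) := by fun_prop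
  have h3 : hpr (rng h0) (fun l => β ≤ f l) = ((rng h0).filter (fun l => β ≤ f l)).card / h0 := by
    rw [hpr_eq_card (R := R) hp, card_rng]
  refine ⟨(rng h0).filter (fun l => β ≤ f l), fun l hl => ?_, ?_⟩
  · have h4 := (mem_filter (R := R) hp).1 hl
    exact ⟨mem_rng.1 h4.1, h4.2⟩
  · have h5 : β ≤ (((rng h0).filter (fun l => β ≤ f l)).card : KK M) / h0 := by
      rw [← h3]
      exact h2
    have h6 : (0 : KK M) < h0 := by exact_mod_cast hh0
    rwa [le_div_iff₀ h6] at h5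

theorem key (h4 : StmtL4 R) {k a N h h0 sig r : M} {H : FSet M (Wd M)} {ψ : Wd M → KK M}
    {u s e c : KK M} (hC : Core R k a N H ψ u s e) (hh0 : 0 < h0) (hN : sig + h0 + r = N)
    (hc : 0 < c) (hh : 0 < h) (hD : DCS k (c ^ 2 / 128) h) (hb : 4096 / c ^ 4 * h ≤ h0)
    {τ y' : Wd M} (hτ : τ ∈ W (k + 1) sig) (hy : y' ∈ Wlt (k + 1) (r + N))
    (hF : c ^ 2 / 16 ≤ havg (rng h0) (bt k h0 H ψ u τ y')) : Gd k h0 H ψ u τ y' := by
  have hψ := hC.recpsi
  have hc2 : 0 < c ^ 2 := by positivity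
  have hR : Rec R (bt k h0 H ψ u τ y') := by
    unfold bt
    fun_prop
  obtain ⟨L, hL1, hL2⟩ := exists_levels R hh0 (β := c ^ 2 / 32) (by positivity) hR
    (bt_le_one R hψ) (by linarith)

  obtain ⟨l₀, hl₀, hyW⟩ := mem_Wlt_iff.1 hy
  have hG : ∀ x ∈ W (k + 1) h0, τ ++ x ++ y' ∈ Wlt (k + 1) (N + N) := by
    intro x hx
    refine mem_Wlt_iff.2 ⟨sig + h0 + l₀, ?_, append_mem_W (append_mem_W hτ hx) hyW⟩
    calc sig + h0 + l₀ < sig + h0 + (r + N) := by
          exact add_lt_add_right hl₀ _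
      _ = N + N := by rw [← add_assoc, hN]
  have hcard : 4 / (c ^ 2 / 32) * (h : KK M) ≤ L.card := by
    refine le_trans ?_ hL2
    have e1 : 4 / (c ^ 2 / 32) * (h : KK M) = c ^ 2 / 32 * (4096 / c ^ 4 * h) := by
      field_simp
      ring
    rw [e1]
    exact mul_le_mul_of_nonneg_left hb (by positivity)
  obtain ⟨l, hl, x, hx, w, hw, hlen, hQ, hG'⟩ := h4 k a h0 h (c ^ 2 / 32) (QQ H ψ u τ)
    (fun t => τ ++ t ++ y' ∈ H) L hC.kpos hC.alt (by positivity) hh
    (by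
      have e1 : c ^ 2 / 32 / 4 = c ^ 2 / 128 := by ring
      rw [e1]
      exact hD)
    (by fun_prop) (by fun_prop)
    (by
      intro x hx x' hx' hxx hGx
      refine hC.ins _ (hG x hx) _ (hG x' hx') ?_ hGx
      rw [wsub_append, wsub_append, wsub_append, wsub_append, hxx])
    (fun l hl => (hL1 l hl).1) hcard (fun l hl => (hL1 l hl).2)
  have hxl : x.len = l := (mem_W.1 hx).1
  refine ⟨(x, w), mem_prod.2 ⟨mem_Wlt_iff.2 ⟨l, (hL1 l hl).1, hx⟩, hw⟩, hQ, ?_, hG'⟩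
  show x.len + 1 + w.len = h0
  rw [hxl]
  exact hlen

end C54

theorem tC54 (R : Set (M → M)) [IsWorld R] (h1 : StmtB01 R) (h4 : StmtL4 R) : StmtC54 R := by
  intro k a N h h0 sig r H ψ u s e c hC hh0 hN hc hc1 hh hD hb hF
  have hψ := hC.recpsi
  have hκ : 0 < k + 1 := lt_succ.2 (zero_le' k)
  have hc2 : 0 < c ^ 2 := by positivity
  have hRb' : ∀ τ, Rec R (fun y' => havg (rng h0) (C54.bt k h0 H ψ u τ y')) := by
    intro τ
    fun_prop
  have hRb : Rec R (fun τ => nu k r N (fun y' => havg (rng h0) (C54.bt k h0 H ψ u τ y'))) := by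
    fun_prop
  have hRg : Rec R (fun τ => nu k r N (fun y' => ind M (Gd k h0 H ψ u τ y'))) := by
    fun_prop
  have e0 : (fun τ => nu k r N (fun y' => havg (rng h0) (fun l =>
      hpr (W (k + 1) h0) (fun t => QQ H ψ u τ (t.take l) ∧ τ ++ t ++ y' ∈ H)))) =
      fun τ => nu k r N (fun y' => havg (rng h0) (C54.bt k h0 H ψ u τ y')) := rfl
  rw [e0] at hF
  have hpt : ∀ τ ∈ W (k + 1) sig,
      nu k r N (fun y' => havg (rng h0) (C54.bt k h0 H ψ u τ y')) ≤
        nu k r N (fun y' => ind M (Gd k h0 H ψ u τ y')) + c ^ 2 / 16 := by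
    intro τ hτ
    have hm := mean_nu R k r hC.Npos
    rw [← hm.add_const (f := fun y' => ind M (Gd k h0 H ψ u τ y')) (by fun_prop)]
    refine hm.mono (hRb' τ) (by fun_prop) ?_
    rintro y' ⟨hy, -⟩
    by_cases hg : Gd k h0 H ψ u τ y'
    · rw [ind_true hg]
      have h5 : havg (rng h0) (C54.bt k h0 H ψ u τ y') ≤ 1 :=
        (mean_rng R hh0).le_of (by fun_prop) fun l _ => C54.bt_le_one R hψ l
      linarith
    · rw [ind_false hg, zero_add]
      by_contra hlt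
      exact hg (C54.key R h4 hC hh0 hN hc hh hD hb hτ hy (not_le.1 hlt).le)
  have hmW := mean_W R hκ sig
  have h6 : havg (W (k + 1) sig) (fun τ => nu k r N (fun y' =>
      havg (rng h0) (C54.bt k h0 H ψ u τ y'))) ≤
      havg (W (k + 1) sig) (fun τ => nu k r N (fun y' => ind M (Gd k h0 H ψ u τ y'))) +
        c ^ 2 / 16 := by
    rw [← hmW.add_const hRg]
    exact hmW.mono hRb (Rec.kadd hRg (Rec.const _)) hpt
  linarith

end Pool.Agent.OVW
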