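import Pool.Agent.OVW.StmtsB5c

/-!
# Block B, C55: the chosen line does not depend on exchanges in the future
-/

namespace Pool.Agent.OVW

open Classical

set_option linter.unusedSectionVars false

variable {M : Type} [Arith M] [HasWorld M] (R : Set (M → M)) [IsWorld R]

namespace C55

theorem len_of_W {k l : M} {u : Wd M} (h : u ∈ W k l) : u.len = l := (mem_W.1 h).1

theorem W_of_Wlt {k n : M} {u : Wd M} (h : u ∈ Wlt k n) : u ∈ W k u.len :=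
  mem_W.2 ⟨rfl, (mem_Wlt.1 h).2⟩

theorem Wlt_of_W {k l n : M} {u : Wd M} (h : u ∈ W k l) (hl : l < n) : u ∈ Wlt k n :=
  mem_Wlt_iff.2 ⟨l, hl, h⟩

/-- the points of a line -/
theorem point_mem {k h0 d : M} {p : Wd M × Wd M} (hp : p ∈ Prs k h0)
    (hl : p.1.len + 1 + p.2.len = h0) (hd : d < k + 1) :
    p.1 ++ wsing d ++ wsub (k + 1) p.2 d ∈ W (k + 1) h0 := by
  have h1 := mem_prod.1 hp
  have h2 : p.1 ++ wsing d ∈ W (k + 1) (p.1.len + 1) :=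
    append_mem_W (W_of_Wlt h1.1) (wsing_mem_W.2 hd)
  have h3 : wsub (k + 1) p.2 d ∈ W (k + 1) p.2.len := wsub_mem_W (W_of_Wlt h1.2) hd
  have h4 := append_mem_W h2 h3
  rwa [hl] at h4

variable {R}

theorem pp {k a N h0 sig r : M} {H : FSet M (Wd M)} {ψ : Wd M → KK M} {u s e : KK M}
    (C : Core R k a N H ψ u s e) (hN : sig + h0 + r = N) {τ y y' : Wd M}
    (hτ : τ ∈ W (k + 1) sig) (hy : y ∈ Wlt (k + 1) (r + N)) (hy' : y' ∈ Wlt (k + 1) (r + N))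
    (hyy : wsub k y a = wsub k y' a) {p : Wd M × Wd M} (hp : p ∈ Prs k h0)
    (h : PP k h0 H ψ u τ y p) : PP k h0 H ψ u τ y' p := by
  refine ⟨h.1, h.2.1, fun d hd => ?_⟩
  have hX : τ ++ (p.1 ++ wsing d ++ wsub (k + 1) p.2 d) ∈ W (k + 1) (sig + h0) :=
    append_mem_W hτ (point_mem hp h.2.1 hd)
  have key : ∀ z : Wd M, z ∈ Wlt (k + 1) (r + N) →
      τ ++ (p.1 ++ wsing d ++ wsub (k + 1) p.2 d) ++ z ∈ Wlt (k + 1) (N + N) := by
    intro z hz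
    refine Wlt_of_W (append_mem_W hX (W_of_Wlt hz)) ?_
    have h1 : z.len < r + N := (mem_Wlt.1 hz).1
    calc sig + h0 + z.len < sig + h0 + (r + N) := by gcongr
      _ = N + N := by rw [← add_assoc, hN]
  refine C.ins _ (key y hy) _ (key y' hy') ?_ (h.2.2 d hd)
  rw [wsub_append, wsub_append k _ y', hyy]

end C55

open C55 in
/-- C55. -/
theorem tC55 (_h4 : StmtB04 M) : StmtC55 R := by
  intro k a N h0 sig r H ψ u s e C _ hN τ hτ y hy y' hy' hyy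
  have hpp : ∀ p ∈ Prs k h0, (PP k h0 H ψ u τ y p ↔ PP k h0 H ψ u τ y' p) := fun p hp =>
    ⟨pp C hN hτ hy hy' hyy hp, pp C hN hτ hy' hy hyy.symm hp⟩
  have hL : Lm k h0 H ψ u τ y = Lm k h0 H ψ u τ y' := hchoose_congr hpp
  have hG : Gd k h0 H ψ u τ y → Gd k h0 H ψ u τ y' := by
    rintro ⟨p, hp, h⟩
    exact ⟨p, hp, (hpp p hp).1 h⟩
  have hψ := C.recpsi
  have hS : Gd k h0 H ψ u τ y →
      Lm k h0 H ψ u τ y ∈ Prs k h0 ∧ PP k h0 H ψ u τ y (Lm k h0 H ψ u τ y) := fun h =>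
    hchoose_mem (R := R) (p := PP k h0 H ψ u τ y) (by fun_prop) h
  refine ⟨hG, hL, ?_, hS, ?_⟩
  · rintro t ⟨h1, d, hd, h2⟩
    refine ⟨hG h1, d, hd, ?_⟩
    rw [← hL]
    exact h2
  · rintro t ⟨h1, d, hd, rfl⟩
    exact (hS h1).2.2.2 d hd

end Pool.Agent.OVW
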