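import Pool.Agent.OVW.B.Mean

/-! # C56: sums over the points of the chosen line -/

namespace Pool.Agent.OVW

open Classical

set_option linter.unusedSectionVars false

variable {M : Type} [Arith M] [HasWorld M]

theorem tC56 (R : Set (M → M)) [IsWorld R] (h3 : StmtB03 R) (h5 : StmtC55 R) : StmtC56 R := by
  intro k a N h0 sig r H ψ u s e hc hh hs τ hτ y hy g hg
  by_cases hG : Gd k h0 H ψ u τ y
  · obtain ⟨h6, h7⟩ := (h5 k a N h0 sig r H ψ u s e hc hh hs τ hτ y hy y hy rfl).2.2.2.1 hG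
    have h8 := mem_prod.1 h6
    have h9 := h3 (k + 1) h0 (Lm k h0 H ψ u τ y).1 (Lm k h0 H ψ u τ y).2 g
      (lt_succ.2 (zero_le' k)) hg h8.1 h8.2 h7.2.1
    rw [if_pos hG, ← h9]
    refine havg_congr fun t _ => ?_
    by_cases ht : Cv k h0 H ψ u τ t y
    · rw [if_pos ht, if_pos ht.2]
    · rw [if_neg ht, if_neg (fun h => ht ⟨hG, h⟩)]
  · rw [if_neg hG, mul_zero]
    have h6 : havg (W (k + 1) h0) (fun t => if Cv k h0 H ψ u τ t y then g t else 0) =
        havg (W (k + 1) h0) (fun _ => (0 : KK M)) :=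
      havg_congr fun t _ => if_neg fun h => hG h.1
    rw [h6]
    unfold havg
    rw [hsum_zero, zero_div]

end Pool.Agent.OVW
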