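import Pool.Agent.OVW.B.Mean

/-! # Block B, C57: case B is impossible -/

namespace Pool.Agent.OVW

open Classical

set_option linter.unusedSectionVars false

variable {M : Type} [Arith M] [HasWorld M] {R : Set (M → M)} [IsWorld R]

namespace C57

/-- Fubini for `nu`. -/
theorem nu_comm (h2 : StmtB02 R) {Ω : Type} [Cod M Ω] (S : FSet M Ω) (k r N : M)
    {f : Ω → Wd M → KK M} (hf : Rec R (fun x : Ω × Wd M => f x.1 x.2)) :
    nu k r N (fun y => havg S (fun ω => f ω y)) = havg S (fun ω => nu k r N (f ω)) := by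
  unfold nu
  have e : ∀ y0 ∈ W (k + 1) r, FW (k + 1) N (fun y => havg S (fun ω => f ω (y0 ++ y))) =
      havg S (fun ω => FW (k + 1) N (fun y => f ω (y0 ++ y))) := by
    intro y0 _
    exact (h2.2.2 Ω S (k + 1) N (fun ω y => f ω (y0 ++ y)) (by fun_prop)).symm
  rw [havg_congr e]
  exact havg_comm (R := R) (f := fun y0 ω => FW (k + 1) N (fun y => f ω (y0 ++ y))) (by fun_prop)

/-- The mean over the words of length `N` followed by a word of length `< N`. -/
theorem second_half {k N h0 sig r : M} (hN : sig + h0 + r = N) {F : Wd M → KK M}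
    (hF : Rec R F) :
    havg (W (k + 1) N) (fun t => FW (k + 1) N (fun y => F (t ++ y))) =
      havg (W (k + 1) sig) (fun τ => havg (W (k + 1) h0) (fun t =>
        nu k r N (fun y => F (τ ++ t ++ y)))) := by
  have e1 : havg (W (k + 1) N) (fun t => FW (k + 1) N (fun y => F (t ++ y))) =
      havg (W (k + 1) (sig + h0)) (fun v => havg (W (k + 1) r) (fun y0 =>
        FW (k + 1) N (fun y => F (v ++ y0 ++ y)))) := by
    have := havg_W_add (R := R) (f := fun t => FW (k + 1) N (fun y => F (t ++ y))) (k + 1)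
      (sig + h0) r (by fun_prop)
    rw [hN] at this
    exact this
  rw [e1, havg_W_add (R := R) (k + 1) sig h0 (by fun_prop)]
  refine havg_congr fun τ _ => havg_congr fun t _ => ?_
  unfold nu
  simp only [append_assoc]

/-- The mean over `τ`, `t` and the future. -/
noncomputable def mu (k sig h0 r N : M) (F : Wd M → Wd M → Wd M → KK M) : KK M :=
  havg (W (k + 1) sig) (fun τ => havg (W (k + 1) h0) (fun t => nu k r N (F τ t)))

theorem mu_swap (h2 : StmtB02 R) {k sig h0 r N : M} {F : Wd M → Wd M → Wd M → KK M}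
    (hF : Rec R (fun x : Wd M × Wd M × Wd M => F x.1 x.2.1 x.2.2)) :
    havg (W (k + 1) sig) (fun τ => nu k r N (fun y' => havg (W (k + 1) h0) (fun t => F τ t y'))) =
      mu k sig h0 r N F := by
  unfold mu
  refine havg_congr fun τ _ => ?_
  exact nu_comm (R := R) h2 (W (k + 1) h0) k r N (f := fun t y' => F τ t y') (by fun_prop)

theorem mu_congr (R : Set (M → M)) [IsWorld R] {k sig h0 r N : M} (hN : 0 < N) {F G : Wd M → Wd M → Wd M → KK M}
    (h : ∀ τ ∈ W (k + 1) sig, ∀ t ∈ W (k + 1) h0, ∀ y ∈ Wlt (k + 1) (r + N), F τ t y = G τ t y) :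
    mu k sig h0 r N F = mu k sig h0 r N G := by
  unfold mu
  refine havg_congr fun τ hτ => havg_congr fun t ht => ?_
  exact (mean_nu R k r hN).congr _ _ fun y hy => h τ hτ t ht y hy.1

theorem mu_add {k sig h0 r N : M} (hN : 0 < N) {F G : Wd M → Wd M → Wd M → KK M}
    (hF : Rec R (fun x : Wd M × Wd M × Wd M => F x.1 x.2.1 x.2.2))
    (hG : Rec R (fun x : Wd M × Wd M × Wd M => G x.1 x.2.1 x.2.2)) :
    mu k sig h0 r N (fun τ t y => F τ t y + G τ t y) =
      mu k sig h0 r N F + mu k sig h0 r N G := by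
  have hκ : 0 < k + 1 := lt_succ.2 (zero_le' k)
  unfold mu
  rw [← (mean_W R hκ sig).add _ _ (by fun_prop) (by fun_prop)]
  refine havg_congr fun τ _ => ?_
  rw [← (mean_W R hκ h0).add _ _ (by fun_prop) (by fun_prop)]
  refine havg_congr fun t _ => ?_
  exact (mean_nu R k r hN).add _ _ (by fun_prop) (by fun_prop)

theorem mu_smul {k sig h0 r N : M} (hN : 0 < N) (c : KK M) {F : Wd M → Wd M → Wd M → KK M}
    (hF : Rec R (fun x : Wd M × Wd M × Wd M => F x.1 x.2.1 x.2.2)) :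
    mu k sig h0 r N (fun τ t y => c * F τ t y) = c * mu k sig h0 r N F := by
  have hκ : 0 < k + 1 := lt_succ.2 (zero_le' k)
  unfold mu
  rw [← (mean_W R hκ sig).smul _ _ (by fun_prop)]
  refine havg_congr fun τ _ => ?_
  rw [← (mean_W R hκ h0).smul _ _ (by fun_prop)]
  refine havg_congr fun t _ => ?_
  exact (mean_nu R k r hN).smul _ _ (by fun_prop)

theorem mu_le {k sig h0 r N : M} {F : Wd M → Wd M → Wd M → KK M}
    (hF : Rec R (fun x : Wd M × Wd M × Wd M => F x.1 x.2.1 x.2.2)) {c : KK M}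
    (h : ∀ τ ∈ W (k + 1) sig, ∀ t ∈ W (k + 1) h0, nu k r N (F τ t) ≤ c) :
    mu k sig h0 r N F ≤ c := by
  have hκ : 0 < k + 1 := lt_succ.2 (zero_le' k)
  unfold mu
  refine (mean_W R hκ sig).le_of (by fun_prop) fun τ hτ => ?_
  exact (mean_W R hκ h0).le_of (by fun_prop) fun t ht => h τ hτ t ht

/-- The part of the future outside of the chosen line is not larger than the maximal score. -/
theorem rest_le {k a N : M} {H : FSet M (Wd M)} {ψ : Wd M → KK M} {u s e : KK M}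
    (h4 : StmtB04 M) (h5 : StmtC55 R) (hC : Core R k a N H ψ u s e) {h0 sig r : M} (hh0 : 0 < h0)
    (hN : sig + h0 + r = N) {τ t : Wd M} (hτ : τ ∈ W (k + 1) sig) (ht : t ∈ W (k + 1) h0) :
    nu k r N (fun y => if τ ++ t ++ y ∈ H ∧ ¬ Cv k h0 H ψ u τ t y then ψ (τ ++ t ++ y) - u else 0)
      ≤ s + e := by
  have hκ : 0 < k + 1 := lt_succ.2 (zero_le' k)
  have hψ : Rec R ψ := hC.recpsi
  unfold nu
  refine havg_le (R := R) (by fun_prop) (W_nonempty hκ r) ?_
  intro y0 hy0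
  have hT : τ ++ t ++ y0 ∈ W (k + 1) (sig + h0 + r) := append_mem_W (append_mem_W hτ ht) hy0
  have hr : Rec R (fun y : Wd M => τ ++ t ++ y0 ++ y ∈ H ∧ ¬ Cv k h0 H ψ u τ t (y0 ++ y)) := by
    fun_prop
  have hmem : ∀ y, y ∈ (Wlt (k + 1) N).filter
      (fun y => τ ++ t ++ y0 ++ y ∈ H ∧ ¬ Cv k h0 H ψ u τ t (y0 ++ y)) ↔
      y ∈ Wlt (k + 1) N ∧ (τ ++ t ++ y0 ++ y ∈ H ∧ ¬ Cv k h0 H ψ u τ t (y0 ++ y)) :=
    fun y => mem_filter hr
  have hS : ∀ y ∈ Wlt (k + 1) N, y0 ++ y ∈ Wlt (k + 1) (r + N) := by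
    intro y hy
    obtain ⟨l, hl, hy⟩ := mem_Wlt_iff.1 hy
    exact mem_Wlt_iff.2 ⟨r + l, add_lt_add_right hl r, append_mem_W hy0 hy⟩
  have h6 := (h4 k a (N + N) (fun x => x ∈ H) hC.alt hC.ins).1 (sig + h0 + r) N _ hT
    (by rw [hN])
  have h7 := hC.max (sig + h0 + r) (by rw [hN]) _ hT
    ((Wlt (k + 1) N).filter
      (fun y => τ ++ t ++ y0 ++ y ∈ H ∧ ¬ Cv k h0 H ψ u τ t (y0 ++ y)))
    (fun y hy => ((hmem y).1 hy).1)
    (by
      intro x hx y hy hxy hx2
      rw [hmem] at hx2 ⊢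
      refine ⟨hy, h6 x hx y hy hxy hx2.2.1, fun hcv => hx2.2.2 ?_⟩
      have hw : wsub k (y0 ++ y) a = wsub k (y0 ++ x) a := by
        rw [wsub_append, wsub_append, hxy]
      exact (h5 k a N h0 sig r H ψ u s e hC hh0 hN τ hτ (y0 ++ y) (hS y hy) (y0 ++ x)
        (hS x hx) hw).2.2.1 t hcv)
    (fun y hy => ((hmem y).1 hy).2.1)
  refine le_trans (le_of_eq ?_) h7
  unfold score
  refine (mean_FW R hκ hC.Npos).congr _ _ fun y hy => ?_
  show (if τ ++ t ++ (y0 ++ y) ∈ H ∧ ¬ Cv k h0 H ψ u τ t (y0 ++ y) then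
      ψ (τ ++ t ++ (y0 ++ y)) - u else 0) = if y ∈ (Wlt (k + 1) N).filter
    (fun y => τ ++ t ++ y0 ++ y ∈ H ∧ ¬ Cv k h0 H ψ u τ t (y0 ++ y)) then
      ψ (τ ++ t ++ y0 ++ y) - u else 0
  rw [← append_assoc (τ ++ t) y0 y]
  by_cases h : τ ++ t ++ y0 ++ y ∈ H ∧ ¬ Cv k h0 H ψ u τ t (y0 ++ y)
  · rw [if_pos h, if_pos ((hmem y).2 ⟨hy, h⟩)]
  · rw [if_neg h, if_neg (fun h' => h ((hmem y).1 h').2)]

end C57

open C57 in
theorem tC57 (R : Set (M → M)) [IsWorld R] (_h1 : StmtB01 R) (h2 : StmtB02 R) (h4 : StmtB04 M)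
    (h5 : StmtC55 R) : StmtC57 R := by
  intro k a N h0 sig r H ψ u s e eps b hC hh0 hN heps hb hee hsec hcv
  have hκ : 0 < k + 1 := lt_succ.2 (zero_le' k)
  have hψ : Rec R ψ := hC.recpsi
  have hNpos := hC.Npos
  by_contra hneg
  rw [not_le] at hneg
  rw [mu_swap (R := R) h2 (F := fun τ t y' =>
    if Cv k h0 H ψ u τ t y' then ψ (τ ++ t ++ y') - (u - eps) else 0) (by fun_prop)] at hneg
  have hcv' : b ≤ mu k sig h0 r N (fun τ t y' => ind M (Cv k h0 H ψ u τ t y')) := by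
    rw [← mu_swap (R := R) h2 (F := fun τ t y' => ind M (Cv k h0 H ψ u τ t y')) (by fun_prop)]
    exact hcv
  -- the part of the chosen line
  have e1 : mu k sig h0 r N (fun τ t y' =>
      if Cv k h0 H ψ u τ t y' then ψ (τ ++ t ++ y') - (u - eps) else 0) =
      mu k sig h0 r N (fun τ t y' =>
        if Cv k h0 H ψ u τ t y' then ψ (τ ++ t ++ y') - u else 0) +
      eps * mu k sig h0 r N (fun τ t y' => ind M (Cv k h0 H ψ u τ t y')) := by
    rw [← mu_smul (R := R) hNpos eps (by fun_prop), ← mu_add (R := R) hNpos (by fun_prop)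
      (by fun_prop)]
    refine mu_congr R hNpos fun τ _ t _ y _ => ?_
    show (if Cv k h0 H ψ u τ t y then ψ (τ ++ t ++ y) - (u - eps) else 0) =
      (if Cv k h0 H ψ u τ t y then ψ (τ ++ t ++ y) - u else 0) +
        eps * ind M (Cv k h0 H ψ u τ t y)
    by_cases h : Cv k h0 H ψ u τ t y
    · rw [if_pos h, if_pos h, ind_true h]
      ring
    · rw [if_neg h, if_neg h, ind_false h]
      ring
  -- the whole
  have e2 : s - e ≤ mu k sig h0 r N (fun τ t y' => phi5 H ψ u (τ ++ t ++ y')) := by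
    rw [second_half (R := R) hN (F := phi5 H ψ u) (by fun_prop)] at hsec
    exact hsec
  have e3 : mu k sig h0 r N (fun τ t y' => phi5 H ψ u (τ ++ t ++ y')) =
      mu k sig h0 r N (fun τ t y' =>
        if Cv k h0 H ψ u τ t y' then ψ (τ ++ t ++ y') - u else 0) +
      mu k sig h0 r N (fun τ t y' =>
        if τ ++ t ++ y' ∈ H ∧ ¬ Cv k h0 H ψ u τ t y' then ψ (τ ++ t ++ y') - u else 0) := by
    rw [← mu_add (R := R) hNpos (by fun_prop) (by fun_prop)]
    refine mu_congr R hNpos fun τ hτ t _ y hy => ?_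
    show (if τ ++ t ++ y ∈ H then ψ (τ ++ t ++ y) - u else 0) =
      (if Cv k h0 H ψ u τ t y then ψ (τ ++ t ++ y) - u else 0) +
        (if τ ++ t ++ y ∈ H ∧ ¬ Cv k h0 H ψ u τ t y then ψ (τ ++ t ++ y) - u else 0)
    by_cases h : Cv k h0 H ψ u τ t y
    · have hH : τ ++ t ++ y ∈ H :=
        (h5 k a N h0 sig r H ψ u s e hC hh0 hN τ hτ y hy y hy rfl).2.2.2.2 t h
      rw [if_pos hH, if_pos h, if_neg (fun h' => h'.2 h), add_zero]
    · by_cases hH : τ ++ t ++ y ∈ H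
      · rw [if_pos hH, if_neg h, if_pos ⟨hH, h⟩, zero_add]
      · rw [if_neg hH, if_neg h, if_neg (fun h' => hH h'.1), add_zero]
  have e4 : mu k sig h0 r N (fun τ t y' =>
      if τ ++ t ++ y' ∈ H ∧ ¬ Cv k h0 H ψ u τ t y' then ψ (τ ++ t ++ y') - u else 0) ≤ s + e :=
    mu_le (R := R) (by fun_prop) fun τ hτ t ht => rest_le h4 h5 hC hh0 hN hτ ht
  have e5 : eps * b ≤ eps * mu k sig h0 r N (fun τ t y' => ind M (Cv k h0 H ψ u τ t y')) :=
    mul_le_mul_of_nonneg_left hcv' heps.le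
  linarith

end Pool.Agent.OVW
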