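import Pool.Agent.OVW.B.Mean

/-! # Block B, C58: case A -/

namespace Pool.Agent.OVW

open Classical

set_option linter.unusedSectionVars false

variable {M : Type} [Arith M] [HasWorld M] {R : Set (M → M)} [IsWorld R]

namespace C58

/-- Fubini for `nu`. -/
theorem nu_comm (h2 : StmtB02 R) {Ω : Type} [Cod M Ω] (S : FSet M Ω) (k r N : M)
    {f : Ω → Wd M → KK M} (hf : Rec R (fun x : Ω × Wd M => f x.1 x.2)) :
    nu k r N (fun y => havg S (fun ω => f ω y)) = havg S (fun ω => nu k r N (f ω)) := by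
  unfold nu
  have e : ∀ y0 ∈ W (k + 1) r, FW (k + 1) N (fun y => havg S (fun ω => f ω (y0 ++ y))) =
      havg S (fun ω => FW (k + 1) N (fun y => f ω (y0 ++ y))) := by
    intro y0 _
    exact (h2.2.2 Ω S (k + 1) N (fun ω y => f ω (y0 ++ y)) (by fun_prop)).symm
  rw [havg_congr e]
  exact havg_comm (R := R) (f := fun y0 ω => FW (k + 1) N (fun y => f ω (y0 ++ y))) (by fun_prop)

theorem Prs_nonempty (k : M) {h0 : M} (h : 0 < h0) : ∃ p, p ∈ Prs k h0 := by
  have h1 : ∀ κ : M, wnil ∈ Wlt κ h0 := fun κ => mem_Wlt_iff.2 ⟨0, h, wnil_mem_W κ⟩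
  exact ⟨(wnil, wnil), mem_prod.2 ⟨h1 _, h1 _⟩⟩

/-- The decomposition along the values of `c`. -/
theorem decomp {Ω : Type} [Cod M Ω] (S : FSet M Ω) (hS : ∃ p, p ∈ S) {P : Prop} {c : Ω}
    (hc : P → c ∈ S) (F G : Ω → KK M) (h1 : ∀ p, P → c = p → G p = F p)
    (h2 : ∀ p, ¬ (P ∧ c = p) → G p = 0) :
    (if P then F c else 0) = S.card * havg S G := by
  have e : (S.card : KK M) * havg S G = hsum S G := by
    unfold havg
    rw [mul_div_cancel₀]
    exact (card_cast_pos hS).ne'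
  rw [e]
  by_cases hP : P
  · rw [if_pos hP]
    refine (hsum_ite_eq (hc hP) (F c)).symm.trans (hsum_congr fun p _ => ?_)
    by_cases h : p = c
    · rw [if_pos h, h1 p hP h.symm, h]
    · rw [if_neg h, h2 p (fun h' => h h'.2.symm)]
  · rw [if_neg hP]
    refine (hsum_zero (S := S)).symm.trans (hsum_congr fun p _ => ?_)
    rw [h2 p (fun h' => hP h'.1)]

end C58

open C58 in
theorem tC58 (R : Set (M → M)) [IsWorld R] (_h1 : StmtB01 R) (h2 : StmtB02 R) (h5 : StmtC55 R)
    (h6 : StmtC56 R) : StmtC58 R := by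
  intro k a N h0 sig r H ψ u s e eps g hC hh0 hN heps hg hgd hmean
  have hκ : 0 < k + 1 := lt_succ.2 (zero_le' k)
  have hψ : Rec R ψ := hC.recpsi
  have hNpos := hC.Npos
  have hPrs := Prs_nonempty k hh0
  have mS : Mean R (fun x => x ∈ W (k + 1) sig) (havg (W (k + 1) sig)) := mean_W R hκ sig
  have mN := mean_nu R k r hNpos
  -- the average over the points of the line
  obtain ⟨A, hA⟩ : ∃ A : Wd M → Wd M → Wd M × Wd M → KK M, A = fun τ y' p =>
      havg (rng (k + 1)) (fun d => ψ (τ ++ (p.1 ++ wsing d ++ wsub (k + 1) p.2 d) ++ y')) :=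
    ⟨_, rfl⟩
  have hAr : Rec R (fun q : Wd M × Wd M × (Wd M × Wd M) => A q.1 q.2.1 q.2.2) := by
    rw [hA]
    fun_prop
  obtain ⟨c0, hc0⟩ : ∃ c0 : KK M, c0 = ((k + 1 : M) : KK M) / hpow (k + 1) h0 := ⟨_, rfl⟩
  have hc0pos : 0 < c0 := by
    rw [hc0]
    refine div_pos ?_ ?_
    · rw [← cK_zero, cK_lt]
      exact hκ
    · rw [← cK_zero, cK_lt]
      exact hpow_pos hκ h0
  -- step 1
  have e1 : havg (W (k + 1) sig) (fun τ => nu k r N (fun y' => havg (W (k + 1) h0) (fun t =>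
      if Cv k h0 H ψ u τ t y' then ψ (τ ++ t ++ y') - (u - eps) else 0))) =
      c0 * havg (W (k + 1) sig) (fun τ => nu k r N (fun y' =>
        if Gd k h0 H ψ u τ y' then A τ y' (Lm k h0 H ψ u τ y') - (u - eps) else 0)) := by
    rw [← mS.smul c0 _ (by fun_prop)]
    refine mS.congr _ _ fun τ hτ => ?_
    rw [← mN.smul c0 _ (by fun_prop)]
    refine mN.congr _ _ fun y' hy' => ?_
    have h7 := h6 k a N h0 sig r H ψ u s e hC hh0 hN τ hτ y' hy'.1
      (fun t => ψ (τ ++ t ++ y') - (u - eps)) (by fun_prop)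
    rw [h7, hc0]
    congr 1
    by_cases hG : Gd k h0 H ψ u τ y'
    · rw [if_pos hG, if_pos hG, hA]
      exact (mean_rng R hκ).sub_const (f := fun d => ψ (τ ++ ((Lm k h0 H ψ u τ y').1 ++ wsing d ++
        wsub (k + 1) (Lm k h0 H ψ u τ y').2 d) ++ y')) (by fun_prop) (u - eps)
    · rw [if_neg hG, if_neg hG]
  rw [e1] at hmean
  have hmean2 := nonneg_of_mul_nonneg_right hmean hc0pos
  -- step 2
  have h3 : eps * g ≤ havg (W (k + 1) sig) (fun τ => nu k r N (fun y' =>
        if Gd k h0 H ψ u τ y' then A τ y' (Lm k h0 H ψ u τ y') - (u - 2 * eps) else 0)) := by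
    have e2 : havg (W (k + 1) sig) (fun τ => nu k r N (fun y' =>
        if Gd k h0 H ψ u τ y' then A τ y' (Lm k h0 H ψ u τ y') - (u - 2 * eps) else 0)) =
        havg (W (k + 1) sig) (fun τ => nu k r N (fun y' =>
          if Gd k h0 H ψ u τ y' then A τ y' (Lm k h0 H ψ u τ y') - (u - eps) else 0)) +
        eps * havg (W (k + 1) sig) (fun τ => nu k r N (fun y' => ind M (Gd k h0 H ψ u τ y'))) := by
      rw [← mS.smul eps _ (by fun_prop), ← mS.add _ _ (by fun_prop) (by fun_prop)]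
      refine mS.congr _ _ fun τ hτ => ?_
      rw [← mN.smul eps _ (by fun_prop), ← mN.add _ _ (by fun_prop) (by fun_prop)]
      refine mN.congr _ _ fun y' hy' => ?_
      by_cases hG : Gd k h0 H ψ u τ y'
      · rw [if_pos hG, if_pos hG, ind_true hG]
        ring
      · rw [if_neg hG, if_neg hG, ind_false hG]
        ring
    rw [e2]
    have h4 : eps * g ≤ eps * havg (W (k + 1) sig) (fun τ => nu k r N (fun y' =>
        ind M (Gd k h0 H ψ u τ y'))) := mul_le_mul_of_nonneg_left hgd heps.le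
    linarith
  -- step 3
  obtain ⟨G, hG⟩ : ∃ G : Wd M → Wd M → Wd M × Wd M → KK M, G = fun τ y' p =>
      if Gd k h0 H ψ u τ y' ∧ Lm k h0 H ψ u τ y' = p then A τ y' p - (u - 2 * eps) else 0 :=
    ⟨_, rfl⟩
  have hGr : Rec R (fun q : Wd M × Wd M × (Wd M × Wd M) => G q.1 q.2.1 q.2.2) := by
    rw [hG]
    fun_prop
  have e4 : havg (W (k + 1) sig) (fun τ => nu k r N (fun y' =>
      if Gd k h0 H ψ u τ y' then A τ y' (Lm k h0 H ψ u τ y') - (u - 2 * eps) else 0)) =
      (Prs k h0).card * havg (W (k + 1) sig) (fun τ => nu k r N (fun y' =>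
        havg (Prs k h0) (fun p => G τ y' p))) := by
    rw [← mS.smul _ _ (by fun_prop)]
    refine mS.congr _ _ fun τ hτ => ?_
    rw [← mN.smul _ _ (by fun_prop)]
    refine mN.congr _ _ fun y' hy' => ?_
    refine decomp (Prs k h0) hPrs (P := Gd k h0 H ψ u τ y') (c := Lm k h0 H ψ u τ y') ?_
      (fun p => A τ y' p - (u - 2 * eps)) (fun p => G τ y' p) ?_ ?_
    · intro hG'
      exact ((h5 k a N h0 sig r H ψ u s e hC hh0 hN τ hτ y' hy'.1 y' hy'.1 rfl).2.2.2.1 hG').1
    · intro p h12 h13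
      rw [hG]
      exact if_pos ⟨h12, h13⟩
    · intro p h12
      rw [hG]
      exact if_neg h12
  have e3 : havg (W (k + 1) sig) (fun τ => nu k r N (fun y' =>
        havg (Prs k h0) (fun p => G τ y' p))) =
      havg (Prs k h0) (fun p => havg (W (k + 1) sig) (fun τ =>
        nu k r N (fun y' => G τ y' p))) := by
    rw [← havg_comm (R := R) (S := W (k + 1) sig) (T := Prs k h0)
      (f := fun τ p => nu k r N (fun y' => G τ y' p)) (by fun_prop)]
    refine mS.congr _ _ fun τ hτ => ?_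
    exact nu_comm (R := R) h2 (Prs k h0) k r N (f := fun p y' => G τ y' p) (by fun_prop)
  rw [e4, e3] at h3
  have hcard : (0 : KK M) < (Prs k h0).card := card_cast_pos hPrs
  have h8 : eps * g / (Prs k h0).card ≤ havg (Prs k h0) (fun p => havg (W (k + 1) sig) (fun τ =>
      nu k r N (fun y' => G τ y' p))) := by
    rw [div_le_iff₀ hcard, mul_comm (havg _ _)]
    exact h3
  obtain ⟨p, hp, h9⟩ := (mean_havg R hPrs).ex_ge (by fun_prop) h8
  obtain ⟨τ, hτ, h10⟩ := mS.ex_ge (by fun_prop) h9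
  unfold nu at h10
  obtain ⟨y0, hy0, h11⟩ := (mean_W R hκ r).ex_ge (by fun_prop) h10
  refine ⟨τ, hτ, p, hp, y0, hy0, ?_⟩
  rw [hG, hA] at h11
  exact h11

end Pool.Agent.OVW
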