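import Pool.Agent.OVW.B.Mean

/-! # Lemma 5 from its core: the maximal score of a substate -/

namespace Pool.Agent.OVW

open Classical

set_option linter.unusedSectionVars false
set_option linter.unusedVariables false

variable {M : Type} [Arith M] [HasWorld M]

namespace OVB_L5

/-- the bound from the density theorem -/
noncomputable def h (hh : KK M → M) (c : KK M) : M := hh (c ^ 2 / 128)

/-- the length of the window -/
noncomputable def h0 (hh : KK M → M) (c : KK M) : M := kceil (4096 / c ^ 4) * h hh c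

/-- the increment of the score -/
noncomputable def ee (k : M) (hh : KK M → M) (c eps : KK M) : KK M :=
  min (c ^ 2 / 16)
    (eps * (((k + 1 : M) : KK M) / (hpow (k + 1) (h0 hh c) : M) * (c ^ 2 / 16)) / 2)

/-- the number of steps -/
noncomputable def JJ (k : M) (hh : KK M → M) (c eps : KK M) : M := kceil (1 / ee k hh c eps)

/-- the length -/
noncomputable def N5 (k : M) (hh : KK M → M) (c eps : KK M) : M :=
  h0 hh c * hpow 2 (JJ k hh c eps)

/-- the score -/
noncomputable def c5 (k : M) (hh : KK M → M) (c eps : KK M) : KK M :=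
  eps * c ^ 2 / (16 * ((Prs k (h0 hh c)).card : M))

variable {R : Set (M → M)} [IsWorld R]

/-- The property of the induction. -/
def PQ (k a n nj : M) (H : FSet M (Wd M)) (ψ : Wd M → KK M) (u s : KK M) : Prop :=
  ∃ t ∈ Wlt (k + 1) (n + 1), ∃ H' ∈ (Wlt (k + 1) n).powerset, t.len + nj ≤ n ∧
    H' ⊆ Wlt (k + 1) nj ∧ Ins k a nj (fun y => y ∈ H') ∧ (∀ y ∈ H', t ++ y ∈ H) ∧
    s ≤ score k nj (fun y => y ∈ H') (fun y => ψ (t ++ y)) u

theorem recPQ (k a n : M) (nj : M → M) (H : FSet M (Wd M)) {ψ : Wd M → KK M} (hψ : Rec R ψ)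
    (u : KK M) (s : M → KK M) (hn : Rec R nj) (hs : Rec R s) :
    Rec R (fun j => PQ k a n (nj j) H ψ u (s j)) := by
  unfold PQ
  fun_prop

theorem score_le_one {k n : M} (hn : 0 < n) {H : Wd M → Prop} (hH : Rec R H) {ψ : Wd M → KK M}
    (hψ : Rec R ψ) (h1 : ∀ x, ψ x ≤ 1) {u : KK M} (hu : 0 ≤ u) : score k n H ψ u ≤ 1 := by
  have hk : 0 < k + 1 := lt_succ.2 (zero_le' k)
  unfold score
  refine (mean_FW R hk hn).le_of (by fun_prop) fun x hx => ?_
  split_ifs
  · linarith [h1 x]
  · exact zero_le_one

end OVB_L5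

open OVB_L5 in
theorem tL5 (R : Set (M → M)) [IsWorld R] (hB2 : StmtB02 R) (hB1 : StmtB01 R) (h4 : StmtB04 M)
    (h5 : StmtC5 R) : StmtL5 R := by
  intro k hh hk hhR hB
  refine ⟨N5 k hh, c5 k hh, ?_, ?_, ?_⟩
  · unfold N5 JJ ee h0 h
    fun_prop
  · unfold c5 h0 h
    fun_prop
  intro c eps hc hc1 heps heps1
  have hk1 : 0 < k + 1 := lt_succ.2 (zero_le' k)
  have hc2 : 0 < c ^ 2 := by positivity
  have hc4 : 0 < c ^ 4 := by positivity
  have hBd := hB (c ^ 2 / 128) (by positivity)
  have hhpos : 0 < h hh c := hBd.1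
  have hkc : 0 < kceil (4096 / c ^ 4) := by
    have h1 := le_kceil (M := M) (4096 / c ^ 4)
    have h2 : 0 < 4096 / c ^ 4 := by positivity
    have h3 : (0 : KK M) < (kceil (4096 / c ^ 4) : M) := lt_of_lt_of_le h2 h1
    exact cK_pos.1 h3
  have hh0 : 0 < h0 hh c := mul_pos hkc hhpos
  have hp0 : 0 < hpow (k + 1) (h0 hh c) := hpow_pos hk1 _
  have hb : 0 < ((k + 1 : M) : KK M) / (hpow (k + 1) (h0 hh c) : M) * (c ^ 2 / 16) := by
    have h1 : (0 : KK M) < ((k + 1 : M) : KK M) := cK_pos.2 hk1
    have h2 : (0 : KK M) < ((hpow (k + 1) (h0 hh c) : M) : KK M) := cK_pos.2 hp0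
    positivity
  have he : 0 < ee k hh c eps := by
    unfold ee
    refine lt_min (by positivity) ?_
    positivity
  have hee1 : ee k hh c eps ≤ c ^ 2 / 16 := min_le_left _ _
  have hee2 : ee k hh c eps ≤
      eps * (((k + 1 : M) : KK M) / (hpow (k + 1) (h0 hh c) : M) * (c ^ 2 / 16)) / 2 :=
    min_le_right _ _
  have hcard : 0 < (Prs k (h0 hh c)).card := by
    refine card_pos.2 ⟨(wnil, wnil), ?_⟩
    unfold Prs
    refine mem_prod.2 ⟨mem_Wlt.2 ⟨?_, ?_⟩, mem_Wlt.2 ⟨?_, ?_⟩⟩
    · simpa using hh0
    · intro i hi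
      simp at hi
    · simpa using hh0
    · intro i hi
      simp at hi
  have hcardK : (1 : KK M) ≤ ((Prs k (h0 hh c)).card : M) := by
    have h1 : (1 : M) ≤ (Prs k (h0 hh c)).card := one_le_iff.2 hcard.ne'
    exact_mod_cast h1
  have hN5 : 0 < N5 k hh c eps := mul_pos hh0 (hpow_pos (by norm_num) _)
  refine ⟨hN5, ?_, ?_, ?_⟩
  · unfold c5
    positivity
  · unfold c5
    rw [div_le_one (by positivity)]
    have h1 : eps * c ^ 2 ≤ 1 := by
      have h2 : c ^ 2 ≤ 1 := by nlinarith
      nlinarith
    linarith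
  intro q hq a ha H ψ u hins hψ hψ01 hu hu1 hsc
  by_contra hcon
  -- the lengths
  set J := JJ k hh c eps with hJ
  set e := ee k hh c eps with hedef
  set n := N5 k hh c eps * q with hn
  have hnpos : 0 < n := mul_pos hN5 hq
  let nj : M → M := fun j => h0 hh c * hpow 2 (J - j) * q
  have hnjpos : ∀ j, 0 < nj j := fun j => mul_pos (mul_pos hh0 (hpow_pos (by norm_num) _)) hq
  have hnjR : Rec R nj := by
    show Rec R (fun j => h0 hh c * hpow 2 (J - j) * q)
    fun_prop
  have hu0 : 0 ≤ u := by linarith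
  have key : ∀ j ≤ J, PQ k a n (nj j) H ψ u (c + (j : KK M) * e) := by
    refine ind_rec_lt (R := R) (p := fun j => PQ k a n (nj j) H ψ u (c + (j : KK M) * e)) ?_ J ?_ ?_
    · exact recPQ k a n nj H hψ u _ hnjR (by fun_prop)
    · refine ⟨wnil, mem_Wlt.2 ⟨?_, ?_⟩, H ∩ Wlt (k + 1) n, ?_, ?_, ?_, ?_, ?_, ?_⟩
      · rw [len_wnil]; exact lt_succ.2 (zero_le' n)
      · intro i hi
        simp at hi
      · rw [mem_powerset]
        intro x hx
        exact (mem_inter.1 hx).2
      · rw [len_wnil, zero_add]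
        show h0 hh c * hpow 2 (J - 0) * q ≤ n
        rw [tsub_zero]
        exact le_rfl
      · intro x hx
        have h1 := (mem_inter.1 hx).2
        show x ∈ Wlt (k + 1) (h0 hh c * hpow 2 (J - 0) * q)
        rw [tsub_zero]
        exact h1
      · show Ins k a (h0 hh c * hpow 2 (J - 0) * q) _
        rw [tsub_zero]
        intro x hx y hy hxy hxH
        exact mem_inter.2 ⟨hins x hx y hy hxy (mem_inter.1 hxH).1, hy⟩
      · intro y hy
        rw [nil_append]
        exact (mem_inter.1 hy).1
      · rw [cK_zero, zero_mul, add_zero]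
        show c ≤ score k (h0 hh c * hpow 2 (J - 0) * q) _ _ _
        rw [tsub_zero]
        refine hsc.trans (le_of_eq ?_)
        unfold score
        refine (mean_FW R hk1 hnpos).congr _ _ fun x hx => ?_
        have h1 : x ∈ H ∩ Wlt (k + 1) n ↔ x ∈ H := by
          rw [mem_inter]
          exact ⟨fun h => h.1, fun h => ⟨h, hx⟩⟩
        simp only [h1, nil_append]
    · rintro j hj ⟨t, ht, H', hH'p, hlen, hH's, hH'i, hH'H, hH'sc⟩
      set N := nj (j + 1) with hN
      have hNpos : 0 < N := hnjpos _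
      have hnjN : nj j = N + N := by
        have h1 : J - j = J - (j + 1) + 1 := by
          obtain ⟨d, hd⟩ := le_iff_exists_add.1 (succ_le.2 hj)
          rw [hd, add_sub_self', add_assoc, add_sub_self', add_comm]
        show h0 hh c * hpow 2 (J - j) * q = h0 hh c * hpow 2 (J - (j + 1)) * q +
          h0 hh c * hpow 2 (J - (j + 1)) * q
        rw [h1, hpow_succ]
        ring
      rw [hnjN] at hlen hH's hH'i hH'sc
      have ht' := mem_Wlt.1 ht
      by_cases hcase : ∃ l ≤ N, ∃ t' ∈ W (k + 1) l, ∃ H'' : FSet M (Wd M), H'' ⊆ Wlt (k + 1) N ∧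
          Ins k a N (fun y => y ∈ H'') ∧ (∀ y ∈ H'', t' ++ y ∈ H') ∧
          c + (j : KK M) * e + e < score k N (fun y => y ∈ H'') (fun y => ψ (t ++ (t' ++ y))) u
      · obtain ⟨l, hl, t', ht'W, H'', h1, h2, h3, h4⟩ := hcase
        have htl := mem_W.1 ht'W
        have hlen2 : (t ++ t').len + N ≤ n := by
          rw [len_append, htl.1]
          calc t.len + l + N ≤ t.len + N + N := by gcongr
            _ = t.len + (N + N) := add_assoc _ _ _
            _ ≤ n := hlen
        refine ⟨t ++ t', ?_, H'', ?_, hlen2, h1, h2, ?_, ?_⟩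
        · refine mem_Wlt_iff.2 ⟨t.len + l, ?_, append_mem_W (mem_W.2 ⟨rfl, ht'.2⟩) ht'W⟩
          refine lt_succ.2 (le_trans ?_ hlen2)
          rw [len_append, htl.1]
          exact le_self_add
        · rw [mem_powerset]
          intro x hx
          have h5 := mem_Wlt.1 (h1 x hx)
          refine mem_Wlt.2 ⟨lt_of_lt_of_le h5.1 ?_, h5.2⟩
          exact le_trans le_add_self hlen2
        · intro y hy
          rw [append_assoc]
          exact hH'H _ (h3 y hy)
        · have h5 : c + ((j + 1 : M) : KK M) * e = c + (j : KK M) * e + e := by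
            push_cast
            ring
          rw [h5]
          simp only [append_assoc]
          exact h4.le
      · push Not at hcase
        exfalso
        apply hcon
        have hcore : Core R k a N H' (fun y => ψ (t ++ y)) u (c + (j : KK M) * e) e := by
          refine ⟨hk, ha, hNpos, hH'i, by fun_prop, fun x => (hψ01 _).1, fun x => (hψ01 _).2, hu0,
            hu1, hH'sc, ?_⟩
          intro l hl t' ht'W H'' h1 h2 h3
          exact hcase l hl t' ht'W H'' h1 h2 h3
        obtain ⟨X, hX, hXW, huX, V, hV, hXV, H'', h1, h2, h3, h4'⟩ := h5 k a N (h hh c) (h0 hh c)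
          (hpow 2 (J - (j + 1)) * q) H' (fun y => ψ (t ++ y)) u (c + (j : KK M) * e) e c eps hcore hc
          hc1 (by
            have h6 := mul_nonneg (cK_nonneg j) he.le
            linarith) heps heps1 hu hhpos hBd.2 hh0 (by
            have h6 := le_kceil (M := M) (4096 / c ^ 4)
            have h7 : ((h0 hh c : M) : KK M) = (kceil (4096 / c ^ 4) : M) * (h hh c : M) := by
              unfold h0
              push_cast
              rfl
            rw [h7]
            exact mul_le_mul_of_nonneg_right h6 (cK_nonneg _))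
          (by rw [hN]; show h0 hh c * hpow 2 (J - (j + 1)) * q = _; ring) he (by linarith)
          (by linarith)
        have hqq : q * (h0 hh c * hpow 2 (J - (j + 1))) = N := by
          rw [hN]
          show _ = h0 hh c * hpow 2 (J - (j + 1)) * q
          ring
        have hXl := mem_Wlt.1 hXW
        have hVl := mem_Wlt.1 hV
        have hNn : N ≤ n := le_trans (le_trans le_self_add le_add_self) hlen
        refine ⟨t ++ X, hH'H X hX, V, mem_Wlt.2 ⟨lt_of_lt_of_le hVl.1 hNn, hVl.2⟩,
          h0 hh c * hpow 2 (J - (j + 1)), mul_pos hh0 (hpow_pos (by norm_num) _), ?_, huX, ?_,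
          H'', ?_, ?_, ?_, ?_⟩
        · refine mem_Wlt_iff.2 ⟨t.len + X.len, ?_, append_mem_W (mem_W.2 ⟨rfl, ht'.2⟩)
            (mem_W.2 ⟨rfl, hXl.2⟩)⟩
          calc t.len + X.len < t.len + N := add_lt_add_right hXl.1 _
            _ ≤ t.len + (N + N) := by gcongr; exact le_self_add
            _ ≤ n := hlen
        · rw [hqq, len_append]
          calc t.len + X.len + 1 + V.len + N = t.len + (X.len + 1 + V.len + N) := by ring
            _ = t.len + (N + N) := by rw [hXV]
            _ ≤ n := hlen
        · rw [hqq]; exact h1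
        · rw [hqq]; exact h2
        · intro y hy d hd
          have h6 := hH'H _ (h3 y hy d hd)
          simp only [append_assoc] at h6 ⊢
          exact h6
        · rw [hqq]
          have h6 : (fun y => havg (rng (k + 1)) (fun d => ψ (t ++ X ++ wsing d ++
              wsub (k + 1) V d ++ y))) = fun y => havg (rng (k + 1)) (fun d =>
              ψ (t ++ (X ++ wsing d ++ wsub (k + 1) V d ++ y))) := by
            funext y
            congr 1
            funext d
            simp only [append_assoc]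
          rw [h6]
          exact h4'
  obtain ⟨t, ht, H', hH'p, hlen, hH's, hH'i, hH'H, hH'sc⟩ := key J le_rfl
  have h1 := score_le_one (R := R) (k := k) (hnjpos J) (H := fun y => y ∈ H') (by fun_prop)
    (ψ := fun y => ψ (t ++ y)) (by fun_prop) (fun x => (hψ01 _).2) hu0
  have h2 : 1 ≤ (J : KK M) * e := by
    have h3 := le_kceil (M := M) (1 / e)
    have h4 : (1 / e) * e ≤ (J : KK M) * e := mul_le_mul_of_nonneg_right h3 he.le
    rwa [one_div, inv_mul_cancel₀ he.ne'] at h4
  linarith

end Pool.Agent.OVW
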