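import Pool.Agent.OVW.B.Mean

/-! # Lemma 6 -/

namespace Pool.Agent.OVW

open Classical

set_option linter.unusedSectionVars false

namespace L6

variable {M : Type} [Arith M] [HasWorld M] {R : Set (M → M)} [IsWorld R]

theorem tree_congr {k m n : M} {T T' : Wd M → Wd M} (h : ∀ z ∈ Wlt (k + 1) m, T z = T' z)
    (hT : Tree k m n T) : Tree k m n T' := by
  have hs : ∀ w ∈ Wlt (k + 1 + 1) m, ∀ c < k + 1, wsub (k + 1) w c ∈ Wlt (k + 1) m := by
    intro w hw c hc
    obtain ⟨l, hl, hw⟩ := mem_Wlt_iff.1 hw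
    exact mem_Wlt_iff.2 ⟨l, hl, wsub_mem_W hw hc⟩
  refine ⟨fun z hz => ?_, fun w hw => ?_, fun x hx w hw hlen => ?_, fun a ha z hz z' hz' he => ?_⟩
  · rw [← h z hz]; exact hT.1 z hz
  · obtain ⟨v, hv, h1⟩ := hT.2.1 w hw
    exact ⟨v, hv, fun c hc => by rw [← h _ (hs w hw c hc)]; exact h1 c hc⟩
  · obtain ⟨v, hv, h1, h2⟩ := hT.2.2.1 x hx w hw hlen
    refine ⟨v, hv, by rw [← h x hx]; exact h1, fun c hc => ?_⟩
    rw [← h x hx, ← h2 c hc]
    refine (h _ ?_).symm
    have hx2 := (mem_Wlt.1 hx).2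
    obtain ⟨l, hl, hw'⟩ := mem_Wlt_iff.1 hw
    have hwl := (mem_W.1 hw').1
    have hxW : x ∈ W (k + 1) x.len := mem_W.2 ⟨rfl, hx2⟩
    have h3 := append_mem_W (append_mem_W hxW (wsing_mem_W.2 hc)) (wsub_mem_W hw' hc)
    exact mem_Wlt_iff.2 ⟨_, by rw [← hwl]; exact hlen, h3⟩
  · rw [← h z hz, ← h z' hz']; exact hT.2.2.2 a ha z hz z' hz' he

theorem wsub_wnil (κ c : M) : wsub κ (wnil : Wd M) c = wnil := by
  rw [← len_eq_zero, len_wsub, len_wnil]

theorem eq_wnil_of_mem {κ : M} {z : Wd M} (hz : z ∈ Wlt κ 1) : z = wnil := by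
  rw [← len_eq_zero]
  exact Arith.lt_one _ (mem_Wlt.1 hz).1

theorem tree_one (k : M) : Tree k 1 1 (fun z => z) := by
  refine ⟨fun z hz => hz, fun w hw => ?_, fun x hx w hw hlen => ?_, fun a ha z hz z' hz' he => he⟩
  · exact ⟨w, hw, fun c hc => rfl⟩
  · exfalso
    have h1 : (1 : M) ≤ x.len + 1 + w.len := le_add_right le_add_self
    exact absurd hlen (not_lt.2 h1)

/-- the coded parameters `c, eps, a, H, ψ, u` -/
abbrev Par (M : Type) [Arith M] [HasWorld M] : Type :=
  KK M × KK M × M × FSet M (Wd M) × FFun M (Wd M) (KK M) × KK M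

/-- the hypotheses of Lemma 6 -/
def A6 (k : M) (f : M → KK M × KK M → M) (m : M) (t : Par M) : Prop :=
  0 < t.1 ∧ t.1 ≤ 1 ∧ 0 < t.2.1 ∧ t.2.1 ≤ 1 ∧ t.2.2.1 < k ∧
    Ins k t.2.2.1 (f m (t.1, t.2.1)) (fun x => x ∈ t.2.2.2.1) ∧
    (∀ x ∈ Wlt (k + 1) (f m (t.1, t.2.1)), 0 ≤ t.2.2.2.2.1 x ∧ t.2.2.2.2.1 x ≤ 1) ∧
    2 * (m : KK M) * t.2.1 ≤ t.2.2.2.2.2 ∧ t.2.2.2.2.2 ≤ 1 ∧
    t.1 ≤ score k (f m (t.1, t.2.1)) (fun x => x ∈ t.2.2.2.1) t.2.2.2.2.1 t.2.2.2.2.2

/-- the conclusion of Lemma 6 -/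
def B6 (k : M) (f : M → KK M × KK M → M) (m : M) (t : Par M) (T : FFun M (Wd M) (Wd M)) : Prop :=
  Tree k (m + 1) (f m (t.1, t.2.1)) T ∧
    (∀ z ∈ Wlt (k + 1) (m + 1), T z ∈ t.2.2.2.1) ∧
    ∀ i ≤ m, t.2.2.2.2.2 - 2 * (i : KK M) * t.2.1 ≤
      havg (W (k + 1) i) (fun z => t.2.2.2.2.1 (T z))

end L6

open L6

/-- Lemma 6 -/
theorem tL6 {M : Type} [Arith M] [HasWorld M] (R0 R1 : Set (M → M)) [IsWorld R0] [IsWorld R1]
    (hR : R0 ⊆ R1) (hj : JumpIn R0 R1) (hB2 : StmtB02 R0) (h4 : StmtB04 M) (h5 : StmtL5 R0)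
    (h61 : StmtL61 R0) (h62 : StmtL62 R0) : StmtL6 R0 := by
  intro k hh hk hhR hbd
  obtain ⟨N5, c5, hN5, hc5, h5'⟩ := h5 k hh hk hhR hbd
  obtain ⟨f, hf, f0, fs⟩ := exists_rec_shift (R := R0) (a := fun _ : KK M × KK M => (1 : M))
    (s := fun p : KK M × KK M => (c5 p.1 p.2, p.2))
    (g := fun (_ : M) (p : KK M × KK M) (v : M) => N5 p.1 p.2 * v)
    (by fun_prop) (by fun_prop) (by fun_prop)
  have hκ : 0 < k + 1 := lt_succ.2 (zero_le' k)
  have hpos : ∀ m : M, ∀ p : KK M × KK M, 0 < p.1 → p.1 ≤ 1 → 0 < p.2 → p.2 ≤ 1 → 0 < f m p := by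
    apply ind_pi1 (R := R0) (q := fun (m : M) (p : KK M × KK M) =>
      0 < p.1 → p.1 ≤ 1 → 0 < p.2 → p.2 ≤ 1 → 0 < f m p)
    · fun_prop
    · intro p _ _ _ _
      rw [f0]; exact one_pos
    · intro m ih p h1 h2 h3 h4
      obtain ⟨h6, h7, h8, -⟩ := h5' p.1 p.2 h1 h2 h3 h4
      rw [fs]
      exact mul_pos h6 (ih _ h7 h8 h3 h4)
  refine ⟨fun m c eps => f m (c, eps), by fun_prop, ?_⟩
  -- the main induction
  have key : ∀ m : M, ∀ t : Par M, A6 k f m t → ∃ T, B6 k f m t T := by
    refine ind_pi1 (R := R1) (q := fun m t => A6 k f m t → ∃ T, B6 k f m t T) ?_ ?_ ?_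
    · apply Rec.imp
      · apply Rec.mono hR
        unfold A6
        fun_prop
      · apply Rec.jump_ex hj
        unfold B6
        fun_prop
    · rintro ⟨c, eps, a, H, ψ, u⟩ ⟨h1, h2, h3, h3', ha, hins, hψ, hu, hu1, hsc⟩
      simp only [B6, f0] at *
      obtain ⟨x, hx, hx1⟩ := (mean_FW R0 hκ one_pos).ex
        (fun x => if x ∈ H then ψ x - u else 0) (by fun_prop)
      have hx0 := eq_wnil_of_mem hx
      subst hx0
      have h6 : c ≤ if wnil ∈ H then ψ wnil - u else 0 := hsc.trans hx1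
      have hmem : wnil ∈ H := by
        by_contra hcon
        rw [if_neg hcon] at h6
        linarith
      rw [if_pos hmem] at h6
      have hT : ∀ z ∈ Wlt (k + 1) 1, ffun (Wlt (k + 1) 1) (fun z : Wd M => z) z = z := fun z hz =>
        ffun_apply (R := R0) (by fun_prop) hz
      refine ⟨ffun (Wlt (k + 1) 1) (fun z : Wd M => z), ?_, ?_, ?_⟩
      · rw [zero_add]
        exact tree_congr (fun z hz => (hT z hz).symm) (tree_one k)
      · intro z hz
        rw [zero_add] at hz
        rw [hT z hz, eq_wnil_of_mem hz]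
        exact hmem
      · intro i hi
        have hi0 : i = 0 := le_antisymm hi (zero_le' i)
        subst hi0
        rw [havg_W_zero (R := R0) _ (by fun_prop), hT wnil hx]
        simp only [cK_zero, mul_zero, zero_mul, sub_zero]
        linarith
    · rintro m ih ⟨c, eps, a, H, ψ, u⟩ ⟨h1, h2, h3, h3', ha, hins, hψ, hu, hu1, hsc⟩
      simp only [B6] at *
      obtain ⟨hN, hc, hc1, hmain⟩ := h5' c eps h1 h2 h3 h3'
      have hn : f (m + 1) (c, eps) = N5 c eps * f m (c5 c eps, eps) := fs m (c, eps)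
      have hq0 : 0 < f m (c5 c eps, eps) := hpos m _ hc hc1 h3 h3'
      set q0 := f m (c5 c eps, eps) with hq0def
      rw [hn] at hins hψ hsc ⊢
      have hm0 : (0 : KK M) ≤ (m : KK M) := cK_nonneg m
      rw [cK_add, cK_one] at hu
      -- global version of ψ
      obtain ⟨X, hX, V, hV, q', hq', hXW, huX, hlen, H', hH'W, hH'ins, hline, hsc'⟩ :=
        hmain q0 hq0 a ha H (fun x => if x ∈ Wlt (k + 1) (N5 c eps * q0) then ψ x else 0) u hins
          (by fun_prop) (by
            intro x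
            by_cases hx : x ∈ Wlt (k + 1) (N5 c eps * q0)
            · simp only [if_pos hx]; exact hψ x hx
            · simp only [if_neg hx]; exact ⟨le_rfl, zero_le_one⟩) (by nlinarith) hu1 (by
            refine hsc.trans (le_of_eq ?_)
            unfold score
            refine (mean_FW R0 hκ (mul_pos hN hq0)).congr _ _ fun x hx => ?_
            simp only [if_pos hx])
      simp only [if_pos hXW] at huX
      -- choice of the context y1
      have h6 : ∃ j < q', ∃ y1 ∈ W (k + 1) (q0 * j), c5 c eps ≤ FW (k + 1) q0 (fun y =>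
          if y1 ++ y ∈ H' then havg (rng (k + 1)) (fun d =>
            (if X ++ wsing d ++ wsub (k + 1) V d ++ (y1 ++ y) ∈ Wlt (k + 1) (N5 c eps * q0) then
              ψ (X ++ wsing d ++ wsub (k + 1) V d ++ (y1 ++ y)) else 0)) - (u - 2 * eps) else 0) := by
        unfold score at hsc'
        rw [hB2.1 (k + 1) q0 q' _ hκ hq0 hq' (by fun_prop)] at hsc'
        obtain ⟨j, hj, h7⟩ := (mean_rng R0 hq').ex_ge (by fun_prop) hsc'
        obtain ⟨y1, hy1, h8⟩ := (mean_W R0 hκ _).ex_ge (by fun_prop) h7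
        exact ⟨j, mem_rng.1 hj, y1, hy1, h8⟩
      obtain ⟨j, hj, y1, hy1, h7⟩ := h6
      have hy1len := (mem_W.1 hy1).1
      have hjq : q0 * j + q0 ≤ q0 * q' := by
        calc q0 * j + q0 = q0 * (j + 1) := by ring
          _ ≤ q0 * q' := mul_le_mul_right (succ_le.2 hj) q0
      -- the new state
      have hmemH1 : ∀ y, y ∈ (Wlt (k + 1) q0).filter (fun y => y1 ++ y ∈ H') ↔
          y ∈ Wlt (k + 1) q0 ∧ y1 ++ y ∈ H' := fun y => mem_filter (R := R0) (by fun_prop)
      set ψ' : Wd M → KK M := fun y => havg (rng (k + 1)) (fun d =>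
        (if X ++ wsing d ++ wsub (k + 1) V d ++ (y1 ++ y) ∈ Wlt (k + 1) (N5 c eps * q0) then
          ψ (X ++ wsing d ++ wsub (k + 1) V d ++ (y1 ++ y)) else 0)) with hψ'
      have hψ'R : Rec R0 ψ' := by fun_prop
      have happ : ∀ y ∈ Wlt (k + 1) q0, ffun (Wlt (k + 1) q0) ψ' y = ψ' y := fun y hy =>
        ffun_apply hψ'R hy
      obtain ⟨T', hT', hT'H, hT'avg⟩ := ih (c5 c eps, eps, a,
        (Wlt (k + 1) q0).filter (fun y => y1 ++ y ∈ H'), ffun (Wlt (k + 1) q0) ψ', u - 2 * eps)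
        ⟨hc, hc1, h3, h3', ha, by
          have h8 := (h4 k a (q0 * q') (fun x => x ∈ H') ha hH'ins).1 (q0 * j) q0 y1 hy1 hjq
          intro x hx y hy he hxH
          rw [hmemH1] at hxH ⊢
          exact ⟨hy, h8 x hx y hy he hxH.2⟩, by
          intro x hx
          simp only [← hq0def] at hx
          rw [happ x hx]
          constructor
          · refine (mean_rng R0 hκ).nonneg (by fun_prop) fun d _ => ?_
            split_ifs with h8
            · exact (hψ _ h8).1
            · exact le_rfl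
          · refine (mean_rng R0 hκ).le_of (by fun_prop) fun d _ => ?_
            split_ifs with h8
            · exact (hψ _ h8).2
            · exact zero_le_one, by simp only; linarith, by simp only; linarith, by
          refine h7.trans (le_of_eq ?_)
          unfold score
          refine (mean_FW R0 hκ hq0).congr _ _ fun y hy => ?_
          simp only [hmemH1]
          by_cases h8 : y1 ++ y ∈ H'
          · rw [if_pos h8, if_pos ⟨hy, h8⟩, happ y hy]
          · rw [if_neg h8, if_neg (fun h => h8 h.2)]⟩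
      simp only at hT' hT'H hT'avg
      have hconsR : Rec R0 (consT k X V y1 T') := by unfold consT; fun_prop
      have hTT : ∀ z ∈ Wlt (k + 1) (m + 1 + 1),
          ffun (Wlt (k + 1) (m + 1 + 1)) (consT k X V y1 T') z = consT k X V y1 T' z :=
        fun z hz => ffun_apply hconsR hz
      have hlen2 : X.len + 1 + V.len + y1.len + q0 ≤ N5 c eps * q0 := by
        rw [hy1len, add_assoc]
        exact (add_le_add_right hjq _).trans hlen
      have hy1n : y1 ∈ Wlt (k + 1) (N5 c eps * q0) := by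
        refine mem_Wlt_iff.2 ⟨q0 * j, ?_, hy1⟩
        calc q0 * j < q0 * j + q0 := lt_add_of_pos_right _ hq0
          _ ≤ q0 * q' := hjq
          _ ≤ X.len + 1 + V.len + q0 * q' := le_add_self
          _ ≤ _ := hlen
      have htree := h61 k (m + 1) (N5 c eps * q0) q0 X V y1 T' hk (by fun_prop) hXW hV hy1n hlen2 hT'
      -- decomposition of a nonempty word
      have hdec : ∀ i : M, ∀ z ∈ W (k + 1) (i + 1), ∃ z' ∈ W (k + 1) i, z.get 0 < k + 1 ∧
          z.drop 1 = z' ∧ z.len ≠ 0 := by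
        intro i z hz
        refine ⟨z.drop 1, ?_, ?_, rfl, ?_⟩
        · have := drop_mem_W (n := 1) hz
          rwa [add_tsub_cancel_right] at this
        · exact (mem_W.1 hz).2 0 (lt_succ.2 (zero_le' i))
        · rw [(mem_W.1 hz).1]
          exact (pos_iff.1 (lt_succ.2 (zero_le' i)))
      refine ⟨ffun (Wlt (k + 1) (m + 1 + 1)) (consT k X V y1 T'), ?_, ?_, ?_⟩
      · exact tree_congr (fun z hz => (hTT z hz).symm) htree
      · intro z hz
        rw [hTT z hz]
        obtain ⟨l, hl, hzl⟩ := mem_Wlt_iff.1 hz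
        rcases cases_succ l with rfl | ⟨i, rfl⟩
        · unfold consT
          rw [if_pos (mem_W.1 hzl).1]
          exact hX
        · obtain ⟨z', hz', hd, hz'2, hne⟩ := hdec i z hzl
          unfold consT
          rw [if_neg hne, hz'2, append_assoc _ y1]
          have h8 : z' ∈ Wlt (k + 1) (m + 1) :=
            mem_Wlt_iff.2 ⟨i, lt_of_add_lt_add_right hl, hz'⟩
          exact hline _ ((hmemH1 _).1 (hT'H z' h8)).2 _ hd
      · intro i hi
        rcases cases_succ i with rfl | ⟨i, rfl⟩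
        · have h8 := (h62 k 0 X V y1 T' ψ hk (by fun_prop) (by fun_prop)).1
          have h9 : havg (W (k + 1) 0) (fun z => ψ (ffun (Wlt (k + 1) (m + 1 + 1))
              (consT k X V y1 T') z)) = ψ X := by
            rw [← h8]
            refine havg_congr fun z hz => ?_
            rw [hTT z (mem_Wlt_iff.2 ⟨0, lt_succ.2 (zero_le' _), hz⟩)]
          rw [h9]
          simp only [cK_zero, mul_zero, zero_mul, sub_zero]
          exact huX
        · have hi' : i ≤ m := by
            have := succ_le.1 hi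
            exact lt_succ.1 this
          have h8 := (h62 k i X V y1 T' ψ hk (by fun_prop) (by fun_prop)).2
          have h9 : havg (W (k + 1) (i + 1)) (fun z => ψ (ffun (Wlt (k + 1) (m + 1 + 1))
              (consT k X V y1 T') z)) = havg (W (k + 1) i) (fun z =>
              ffun (Wlt (k + 1) q0) ψ' (T' z)) := by
            have h10 : havg (W (k + 1) (i + 1)) (fun z => ψ (ffun (Wlt (k + 1) (m + 1 + 1))
              (consT k X V y1 T') z)) = havg (W (k + 1) (i + 1))
                (fun z => ψ (consT k X V y1 T' z)) := by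
              refine havg_congr fun z hz => ?_
              rw [hTT z (mem_Wlt_iff.2 ⟨i + 1, lt_succ.2 hi, hz⟩)]
            rw [h10, h8]
            refine havg_congr fun z hz => ?_
            have h11 : z ∈ Wlt (k + 1) (m + 1) := mem_Wlt_iff.2 ⟨i, lt_succ.2 hi', hz⟩
            have h12 : T' z ∈ Wlt (k + 1) q0 := hT'.1 z h11
            rw [happ _ h12]
            refine havg_congr fun d hd => ?_
            rw [if_pos]
            obtain ⟨l', hl', hTl⟩ := mem_Wlt_iff.1 h12
            have hXl := mem_W.2 ⟨rfl, (mem_Wlt.1 hXW).2⟩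
            have hVl : V ∈ W (k + 1 + 1) V.len := mem_W.2 ⟨rfl, (mem_Wlt.1 hV).2⟩
            have h13 := append_mem_W (append_mem_W (append_mem_W hXl (wsing_mem_W.2
              (mem_rng.1 hd))) (wsub_mem_W hVl (mem_rng.1 hd))) (append_mem_W hy1 hTl)
            refine mem_Wlt_iff.2 ⟨_, ?_, h13⟩
            calc X.len + 1 + V.len + (q0 * j + l') < X.len + 1 + V.len + (q0 * j + q0) :=
                  add_lt_add_right (add_lt_add_right hl' _) _
              _ ≤ _ := (add_le_add_right hjq _).trans hlen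
          rw [h9]
          have h10 := hT'avg i hi'
          rw [cK_add, cK_one]
          linarith
  intro m c eps h1 h2 h3 h3'
  refine ⟨hpos m _ h1 h2 h3 h3', fun a ha H ψ u hins hψ hu hu1 hsc => ?_⟩
  exact key m (c, eps, a, H, ψ, u) ⟨h1, h2, h3, h3', ha, hins, hψ, hu, hu1, hsc⟩

end Pool.Agent.OVW
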