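import Pool.Agent.OVW.StmtsB5c

/-! # L61: `consT` is a tree -/

namespace Pool.Agent.OVW

open Classical

set_option linter.unusedSectionVars false

namespace L61

variable {M : Type} [Arith M] [HasWorld M]

/-- the letters of `u` are `< κ` -/
def Lt (κ : M) (u : Wd M) : Prop := ∀ i < u.len, u.get i < κ

theorem lt_iff {κ : M} {u : Wd M} : Lt κ u ↔ u ∈ W κ u.len :=
  ⟨fun h => mem_W.2 ⟨rfl, h⟩, fun h => (mem_W.1 h).2⟩

theorem mem_iff {κ n : M} {u : Wd M} : u ∈ Wlt κ n ↔ u.len < n ∧ Lt κ u := mem_Wlt

theorem Lt.append {κ : M} {u v : Wd M} (hu : Lt κ u) (hv : Lt κ v) : Lt κ (u ++ v) := by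
  have h := append_mem_W (lt_iff.1 hu) (lt_iff.1 hv)
  intro i hi
  rw [len_append] at hi
  exact (mem_W.1 h).2 i hi

theorem lt_sing {κ c : M} (hc : c < κ) : Lt κ (wsing c) := by
  have h := wsing_mem_W.2 hc
  intro i hi
  rw [len_wsing] at hi
  exact (mem_W.1 h).2 i hi

theorem Lt.mono {κ κ' : M} {u : Wd M} (hu : Lt κ u) (h : κ ≤ κ') : Lt κ' u :=
  fun i hi => (hu i hi).trans_le h

theorem Lt.sub {k : M} {u : Wd M} {c : M} (hu : Lt (k + 1) u) (hc : c < k) :
    Lt k (wsub k u c) := by
  have h := wsub_mem_W (lt_iff.1 hu) hc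
  intro i hi
  rw [len_wsub] at hi
  exact (mem_W.1 h).2 i hi

theorem Lt.novar {κ : M} {u : Wd M} (hu : Lt κ u) (c : M) : wsub κ u c = u :=
  wsub_of_no_var c fun i hi => (hu i hi).ne

theorem get_cons (d : M) (z : Wd M) : (wsing d ++ z).get 0 = d := by
  rw [get_append_left (by rw [len_wsing]; exact zero_lt_one), get_wsing]

theorem drop_cons (d : M) (z : Wd M) : (wsing d ++ z).drop 1 = z :=
  drop_append_left (len_wsing d)

/-- a word is empty or a letter and a word -/
theorem cases (κ : M) (z : Wd M) (hz : Lt κ z) :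
    z = wnil ∨ ∃ d z1, z = wsing d ++ z1 ∧ d < κ ∧ Lt κ z1 ∧ z.len = 1 + z1.len := by
  rcases eq_or_ne z.len 0 with h | h
  · exact Or.inl (len_eq_zero.1 h)
  · right
    have hpos : 0 < z.len := pos_iff.2 h
    obtain ⟨v, hv⟩ := exists_cons hpos
    have hlen : z.len = 1 + v.len := by
      conv_lhs => rw [hv]
      rw [len_append, len_wsing]
    refine ⟨z.get 0, v, hv, hz 0 hpos, ?_, hlen⟩
    intro i hi
    have h1 : z.get (1 + i) = v.get i := by
      conv_lhs => rw [hv]
      have := get_append_right (u := wsing (z.get 0)) (v := v) i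
      rwa [len_wsing] at this
    rw [← h1]
    apply hz
    rw [hlen]
    exact (add_lt_add_iff_left 1).2 hi

theorem consT_nil (k : M) (X V y1 : Wd M) (T : Wd M → Wd M) : consT k X V y1 T wnil = X := by
  unfold consT
  rw [if_pos len_wnil]

theorem consT_cons (k : M) (X V y1 : Wd M) (T : Wd M → Wd M) (d : M) (z : Wd M) :
    consT k X V y1 T (wsing d ++ z) = X ++ wsing d ++ wsub (k + 1) V d ++ y1 ++ T z := by
  unfold consT
  rw [if_neg, get_cons, drop_cons]
  rw [len_append, len_wsing]
  exact (lt_of_lt_of_le zero_lt_one le_self_add).ne'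

theorem wsub_nil (κ c : M) : wsub κ (wnil : Wd M) c = wnil := by
  rw [← len_eq_zero, len_wsub, len_wnil]

theorem wsub_cons (κ d c : M) (z : Wd M) :
    wsub κ (wsing d ++ z) c = wsing (if d = κ then c else d) ++ wsub κ z c := by
  rw [wsub_append]
  split_ifs with h
  · rw [h, wsub_wsing_self]
  · rw [wsub_wsing_of_ne c h]

theorem cons_inj {d d' : M} {z z' : Wd M} (h : wsing d ++ z = wsing d' ++ z') :
    d = d' ∧ z = z' := by
  obtain ⟨h1, h2⟩ := append_inj h (by rw [len_wsing, len_wsing])
  refine ⟨?_, h2⟩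
  rw [← get_wsing d, h1, get_wsing]

/-- the substitutions `d` and `d'` for the variable `k + 1` agree after `k ↦ a` -/
theorem sub_sub {k a d d' : M} (V : Wd M) (h : (if d = k then a else d) = if d' = k then a else d') :
    wsub k (wsub (k + 1) V d) a = wsub k (wsub (k + 1) V d') a := by
  apply Wd.ext'
  · rw [len_wsub, len_wsub, len_wsub, len_wsub]
  · intro i hi
    rw [len_wsub, len_wsub] at hi
    have h1 : i < (wsub (k + 1) V d).len := by rwa [len_wsub]
    have h2 : i < (wsub (k + 1) V d').len := by rwa [len_wsub]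
    rw [get_wsub h1, get_wsub h2, get_wsub hi, get_wsub hi]
    by_cases hV : V.get i = k + 1
    · rw [if_pos hV, if_pos hV]
      exact h
    · rw [if_neg hV, if_neg hV]

end L61

variable {M : Type} [Arith M] [HasWorld M]

open L61 in
theorem tL61 (R : Set (M → M)) [IsWorld R] : StmtL61 R := by
  intro k m n n' X V y1 T hk hT hX hV hy hlen hTree
  rw [mem_iff] at hX hV hy
  obtain ⟨hXn, hX⟩ := hX
  obtain ⟨hVn, hV⟩ := hV
  obtain ⟨hyn, hy⟩ := hy
  obtain ⟨t1, t2, t3, t4⟩ := hTree
  refine ⟨?_, ?_, ?_, ?_⟩
  · intro z hz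
    rw [mem_iff] at hz
    rcases cases _ z hz.2 with rfl | ⟨d, z1, rfl, hd, hz1, hl⟩
    · rw [consT_nil]
      exact mem_iff.2 ⟨hXn, hX⟩
    · rw [consT_cons]
      have hz1m : z1.len < m := by
        have := hz.1
        rw [hl, add_comm] at this
        exact lt_of_add_lt_add_right this
      obtain ⟨h1, h2⟩ := mem_iff.1 (t1 z1 (mem_iff.2 ⟨hz1m, hz1⟩))
      refine mem_iff.2 ⟨?_, ?_⟩
      · rw [len_append, len_append, len_append, len_append, len_wsing, len_wsub]
        exact lt_of_lt_of_le ((add_lt_add_iff_left _).2 h1) hlen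
      · exact (((hX.append (lt_sing hd)).append (hV.sub hd)).append hy).append h2
  · intro w hw
    rw [mem_iff] at hw
    rcases cases _ w hw.2 with rfl | ⟨o, w1, rfl, ho, hw1, hl⟩
    · refine ⟨X, mem_iff.2 ⟨hXn, hX.mono le_self_add⟩, fun c hc => ?_⟩
      rw [wsub_nil, consT_nil, hX.novar]
    · have hw1m : w1.len < m := by
        have := hw.1
        rw [hl, add_comm] at this
        exact lt_of_add_lt_add_right this
      obtain ⟨v, hv, hvT⟩ := t2 w1 (mem_iff.2 ⟨hw1m, hw1⟩)
      rw [mem_iff] at hv
      by_cases hok : o = k + 1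
      · subst hok
        refine ⟨X ++ wsing (k + 1) ++ V ++ y1 ++ v, ?_, fun c hc => ?_⟩
        · refine mem_iff.2 ⟨?_, ?_⟩
          · rw [len_append, len_append, len_append, len_append, len_wsing]
            exact lt_of_lt_of_le ((add_lt_add_iff_left _).2 hv.1) hlen
          · exact ((((hX.mono le_self_add).append (lt_sing ho)).append hV).append
              (hy.mono le_self_add)).append hv.2
        · rw [wsub_cons, if_pos rfl, consT_cons, hvT c hc, wsub_append, wsub_append, wsub_append,
            wsub_append, wsub_wsing_self, hX.novar, hy.novar]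
      · have ho' : o < k + 1 := by
          rcases lt_or_ge o (k + 1) with h | h
          · exact h
          · exact absurd (le_antisymm (lt_succ.1 ho) h) hok
        refine ⟨X ++ wsing o ++ wsub (k + 1) V o ++ y1 ++ v, ?_, fun c hc => ?_⟩
        · refine mem_iff.2 ⟨?_, ?_⟩
          · rw [len_append, len_append, len_append, len_append, len_wsing, len_wsub]
            exact lt_of_lt_of_le ((add_lt_add_iff_left _).2 hv.1) hlen
          · exact ((((hX.mono le_self_add).append (lt_sing ho)).append
              ((hV.sub ho').mono le_self_add)).append (hy.mono le_self_add)).append hv.2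
        · rw [wsub_cons, if_neg hok, consT_cons, hvT c hc, wsub_append, wsub_append, wsub_append,
            wsub_append, wsub_wsing_of_ne c hok, hX.novar, hy.novar, (hV.sub ho').novar]
  · intro x hx w hw hlt
    rw [mem_iff] at hx hw
    rcases cases _ x hx.2 with rfl | ⟨d, x1, rfl, hd, hx1, hl⟩
    · rw [len_wnil, zero_add, add_comm] at hlt
      have hwm : w.len < m := lt_of_add_lt_add_right hlt
      obtain ⟨v, hv, hvT⟩ := t2 w (mem_iff.2 ⟨hwm, hw.2⟩)
      rw [mem_iff] at hv
      have hvn : X.len + 1 + (V ++ y1 ++ v).len < n := by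
        rw [len_append, len_append, ← add_assoc, ← add_assoc]
        exact lt_of_lt_of_le ((add_lt_add_iff_left _).2 hv.1) hlen
      refine ⟨V ++ y1 ++ v, mem_iff.2 ⟨lt_of_le_of_lt le_add_self hvn,
        (hV.append (hy.mono le_self_add)).append hv.2⟩, ?_, fun c hc => ?_⟩
      · rw [consT_nil]
        exact hvn
      · rw [nil_append, consT_cons, consT_nil, hvT c hc, wsub_append, wsub_append, hy.novar]
        simp only [append_assoc]
    · have h1 : x1.len + 1 + w.len < m := by
        rw [hl] at hlt
        have : 1 + x1.len + 1 + w.len = x1.len + 1 + w.len + 1 := by ring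
        rw [this] at hlt
        exact lt_of_add_lt_add_right hlt
      have hx1m : x1.len < m := lt_of_le_of_lt (by rw [add_assoc]; exact le_self_add) h1
      have hwm : w.len < m := lt_of_le_of_lt le_add_self h1
      obtain ⟨v, hv, hv2, hvT⟩ := t3 x1 (mem_iff.2 ⟨hx1m, hx1⟩) w (mem_iff.2 ⟨hwm, hw.2⟩) h1
      rw [mem_iff] at hv
      have hvn : (consT k X V y1 T (wsing d ++ x1)).len + 1 + v.len < n := by
        rw [consT_cons, len_append, len_append, len_append, len_append, len_wsing, len_wsub]
        have : X.len + 1 + V.len + y1.len + (T x1).len + 1 + v.len =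
          X.len + 1 + V.len + y1.len + ((T x1).len + 1 + v.len) := by ring
        rw [this]
        exact lt_of_lt_of_le ((add_lt_add_iff_left _).2 hv2) hlen
      refine ⟨v, mem_iff.2 ⟨lt_of_le_of_lt le_add_self hvn, hv.2⟩, hvn, fun c hc => ?_⟩
      have e1 : wsing d ++ x1 ++ wsing c ++ wsub (k + 1) w c =
          wsing d ++ (x1 ++ wsing c ++ wsub (k + 1) w c) := by
        simp only [append_assoc]
      rw [e1, consT_cons, consT_cons, hvT c hc]
      simp only [append_assoc]
  · intro a ha z hz z' hz' he
    rw [mem_iff] at hz hz'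
    rcases cases _ z hz.2 with rfl | ⟨d, z1, rfl, hd, hz1, hl⟩
    · have h0 : z' = wnil := by
        rw [← len_eq_zero, ← len_wsub k z' a, ← he, len_wsub, len_wnil]
      rw [h0]
    · rcases cases _ z' hz'.2 with rfl | ⟨d', z1', rfl, hd', hz1', hl'⟩
      · exfalso
        have h0 : (wsing d ++ z1).len = 0 := by
          rw [← len_wsub k _ a, he, len_wsub, len_wnil]
        rw [hl] at h0
        exact (lt_of_lt_of_le zero_lt_one (le_self_add (a := (1 : M)) (b := z1.len))).ne' h0
      · rw [wsub_cons, wsub_cons] at he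
        obtain ⟨hd1, hz2⟩ := cons_inj he
        have hz1m : z1.len < m := by
          have := hz.1
          rw [hl, add_comm] at this
          exact lt_of_add_lt_add_right this
        have hz1m' : z1'.len < m := by
          have := hz'.1
          rw [hl', add_comm] at this
          exact lt_of_add_lt_add_right this
        have h5 := t4 a ha z1 (mem_iff.2 ⟨hz1m, hz1⟩) z1' (mem_iff.2 ⟨hz1m', hz1'⟩) hz2
        rw [consT_cons, consT_cons]
        simp only [wsub_append]
        rw [h5, sub_sub V hd1]
        congr 4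
        have h6 := wsub_cons k d a (wnil : Wd M)
        have h7 := wsub_cons k d' a (wnil : Wd M)
        rw [append_nil, wsub_nil, append_nil] at h6 h7
        rw [h6, h7, hd1]

end Pool.Agent.OVW
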