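import Pool.Agent.OVW.StmtsB5c

/-! # L62: averages of a function along `consT` -/

namespace Pool.Agent.OVW

open Classical

set_option linter.unusedSectionVars false

variable {M : Type} [Arith M] [HasWorld M] (R : Set (M → M)) [IsWorld R]

namespace L62

variable {R}

theorem consT_nil (k : M) (X V y1 : Wd M) (T : Wd M → Wd M) : consT k X V y1 T wnil = X := by
  unfold consT
  rw [if_pos len_wnil]

theorem consT_cons (k : M) (X V y1 : Wd M) (T : Wd M → Wd M) (c : M) (v : Wd M) :
    consT k X V y1 T (wsing c ++ v) = X ++ wsing c ++ wsub (k + 1) V c ++ (y1 ++ T v) := by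
  unfold consT
  have h1 : (wsing c ++ v).len ≠ 0 := by
    rw [len_append, len_wsing]
    exact (lt_of_lt_of_le one_pos le_self_add).ne'
  have h2 : (wsing c ++ v).get 0 = c := by
    rw [get_append_left (by rw [len_wsing]; exact one_pos), get_wsing]
  have h3 : (wsing c ++ v).drop 1 = v := drop_append_left (len_wsing c)
  rw [if_neg h1, h2, h3]
  simp only [append_assoc]

theorem rec_consT (k : M) (X V y1 : Wd M) {T : Wd M → Wd M} (hT : Rec R T) :
    Rec R (consT k X V y1 T) := by
  unfold consT
  fun_prop

end L62

open L62 in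
/-- L62: averages of a function along `consT`. -/
theorem tL62 : StmtL62 R := by
  intro k i X V y1 T f hk hT hf
  obtain ⟨F, hF⟩ : ∃ F, F = consT k X V y1 T := ⟨_, rfl⟩
  have h1 : Rec R F := by
    rw [hF]
    exact rec_consT (R := R) k X V y1 hT
  rw [← hF]
  constructor
  · rw [havg_W_zero (R := R) _ (by fun_prop), hF, consT_nil]
  · rw [add_comm i 1, havg_W_add (R := R) _ _ _ (by fun_prop), havg_W_one (R := R) _ (by fun_prop),
      havg_comm (R := R) (by fun_prop)]
    subst hF
    simp only [consT_cons]

end Pool.Agent.OVW
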