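import Pool.Agent.OVW.B.L6

/-! # Lemma 7 -/

namespace Pool.Agent.OVW

open Classical

set_option linter.unusedSectionVars false

namespace L7

variable {M : Type} [Arith M] [HasWorld M] {R : Set (M → M)} [IsWorld R]

/-- the coded parameters `m, c, eps, a, H, ψ, u` -/
abbrev Par (M : Type) [Arith M] [HasWorld M] : Type :=
  M × KK M × KK M × Wd M × FFun M M (FSet M (Wd M)) × FFun M (Wd M) (KK M) × KK M

/-- the hypotheses of Lemma 7 -/
def A7 (k : M) (f : M → M × KK M × KK M → M) (r : M) (t : Par M) : Prop :=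
  0 < t.2.1 ∧ t.2.1 ≤ 1 ∧ 0 < t.2.2.1 ∧ t.2.2.1 ≤ 1 ∧
    (∀ i < r + 1, t.2.2.2.1.get i < k ∧ Ins k (t.2.2.2.1.get i) (f r (t.1, t.2.1, t.2.2.1))
      (fun x => x ∈ t.2.2.2.2.1 i)) ∧
    (∀ x ∈ Wlt (k + 1) (f r (t.1, t.2.1, t.2.2.1)), 0 ≤ t.2.2.2.2.2.1 x ∧ t.2.2.2.2.2.1 x ≤ 1) ∧
    t.2.2.1 ≤ t.2.2.2.2.2.2 ∧ t.2.2.2.2.2.2 ≤ 1 ∧
    t.2.1 ≤ score k (f r (t.1, t.2.1, t.2.2.1)) (fun x => ∀ i < r + 1, x ∈ t.2.2.2.2.1 i)
      t.2.2.2.2.2.1 t.2.2.2.2.2.2

/-- the conclusion of Lemma 7 -/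
def B7 (k : M) (f : M → M × KK M × KK M → M) (r : M) (t : Par M) (T : FFun M (Wd M) (Wd M)) :
    Prop :=
  Tree k (t.1 + 1) (f r (t.1, t.2.1, t.2.2.1)) T ∧
    (∀ z ∈ Wlt (k + 1) (t.1 + 1), ∀ i < r + 1, T z ∈ t.2.2.2.2.1 i) ∧
    ∀ i ≤ t.1, t.2.2.2.2.2.2 - t.2.2.1 ≤ havg (W (k + 1) i) (fun z => t.2.2.2.2.2.1 (T z))

end L7

open L6 L7

/-- Lemma 7 -/
theorem tL7 {M : Type} [Arith M] [HasWorld M] (R0 R1 : Set (M → M)) [IsWorld R0] [IsWorld R1]
    (hR : R0 ⊆ R1) (hj : JumpIn R0 R1) (hTC : StmtTC M) (h6 : StmtL6 R0) : StmtL7 R0 := by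
  intro k hh hk hhR hbd
  obtain ⟨n6, hn6, h6'⟩ := h6 k hh hk hhR hbd
  obtain ⟨f, hf, f0, fs⟩ := exists_rec_shift (R := R0)
    (a := fun p : M × KK M × KK M => n6 p.1 p.2.1 (p.2.2 / (2 * p.1 + 2)))
    (s := fun p : M × KK M × KK M => (p.1, p.2.1 / 4, p.2.2))
    (g := fun (_ : M) (p : M × KK M × KK M) (v : M) => n6 (v - 1) (p.2.1 / 4) (p.2.1 / (16 * v)))
    (by fun_prop) (by fun_prop) (by fun_prop)
  have hκ : 0 < k + 1 := lt_succ.2 (zero_le' k)
  have heps : ∀ (m : M) (eps : KK M), 0 < eps → eps ≤ 1 → 0 < eps / (2 * (m : KK M) + 2) ∧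
      eps / (2 * (m : KK M) + 2) ≤ 1 ∧ 2 * (m : KK M) * (eps / (2 * (m : KK M) + 2)) ≤ eps := by
    intro m eps h1 h2
    have hm : (0 : KK M) ≤ m := cK_nonneg m
    have hp : (0 : KK M) < 2 * m + 2 := by linarith
    refine ⟨by positivity, ?_, ?_⟩
    · rw [div_le_one hp]; linarith
    · rw [← mul_div_assoc, div_le_iff₀ hp]
      nlinarith
  have heps2 : ∀ (v : M) (c : KK M), 0 < v → 0 < c → c ≤ 1 → 0 < c / (16 * (v : KK M)) ∧
      c / (16 * (v : KK M)) ≤ 1 ∧ 2 * ((v - 1 : M) : KK M) * (c / (16 * (v : KK M))) ≤ c / 8 := by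
    intro v c hv h1 h2
    have hv1 : (1 : M) ≤ v := one_le_iff.2 (pos_iff.1 hv)
    have hv1' : (1 : KK M) ≤ v := by exact_mod_cast hv1
    rw [cK_sub hv1, cK_one]
    have hp : (0 : KK M) < 16 * v := by linarith
    refine ⟨by positivity, ?_, ?_⟩
    · rw [div_le_one hp]; linarith
    · rw [← mul_div_assoc, div_le_iff₀ hp]
      nlinarith
  have hpos : ∀ r : M, ∀ p : M × KK M × KK M, 0 < p.2.1 → p.2.1 ≤ 1 → 0 < p.2.2 → p.2.2 ≤ 1 →
      0 < f r p := by
    refine ind_pi1 (R := R0) (q := fun (r : M) (p : M × KK M × KK M) =>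
      0 < p.2.1 → p.2.1 ≤ 1 → 0 < p.2.2 → p.2.2 ≤ 1 → 0 < f r p) ?_ ?_ ?_
    · fun_prop
    · rintro ⟨m, c, eps⟩ h1 h2 h3 h4
      rw [f0]
      obtain ⟨h7, h8, -⟩ := heps m eps h3 h4
      exact (h6' m c _ h1 h2 h7 h8).1
    · rintro r ih ⟨m, c, eps⟩ h1 h2 h3 h4
      simp only at h1 h2 h3 h4
      rw [fs]
      have hv := ih (m, c / 4, eps) (by simp only; linarith) (by simp only; linarith) h3 h4
      obtain ⟨h7, h8, -⟩ := heps2 _ c hv h1 h2
      exact (h6' _ (c / 4) _ (by linarith) (by linarith) h7 h8).1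
  refine ⟨fun r m c eps => f (r - 1) (m, c, eps), by fun_prop, ?_⟩
  have key : ∀ r : M, ∀ t : L7.Par M, A7 k f r t → ∃ T, B7 k f r t T := by
    refine ind_pi1 (R := R1) (q := fun r t => A7 k f r t → ∃ T, B7 k f r t T) ?_ ?_ ?_
    · apply Rec.imp
      · apply Rec.mono hR
        unfold A7
        fun_prop
      · apply Rec.jump_ex hj
        unfold B7
        fun_prop
    · rintro ⟨m, c, eps, a, H, ψ, u⟩ ⟨h1, h2, h3, h3', hins, hψ, hu, hu1, hsc⟩
      simp only [B7, f0] at *
      obtain ⟨h7, h8, h9⟩ := heps m eps h3 h3'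
      have hlt : ∀ i : M, i < 0 + 1 ↔ i = 0 := fun i => by
        rw [zero_add]
        exact ⟨fun h => Arith.lt_one i h, fun h => h ▸ one_pos⟩
      simp only [hlt, forall_eq] at *
      obtain ⟨T, hT, hTH, hTa⟩ := (h6' m c _ h1 h2 h7 h8).2 (a.get 0) hins.1 (H 0) ψ u hins.2 hψ
        (h9.trans hu) hu1 hsc
      refine ⟨T, hT, hTH, fun i hi => le_trans ?_ (hTa i hi)⟩
      have hi' : (i : KK M) ≤ m := by exact_mod_cast hi
      have h10 : 2 * (i : KK M) * (eps / (2 * (m : KK M) + 2)) ≤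
          2 * (m : KK M) * (eps / (2 * (m : KK M) + 2)) :=
        mul_le_mul_of_nonneg_right (by linarith) h7.le
      linarith
    · rintro r ih ⟨m, c, eps, a, H, ψ, u⟩ ⟨h1, h2, h3, h3', hins, hψ, hu, hu1, hsc⟩
      have hn : f (r + 1) (m, c, eps) =
        n6 (f r (m, c / 4, eps) - 1) (c / 4) (c / (16 * (f r (m, c / 4, eps)))) := fs r (m, c, eps)
      have hvpos : 0 < f r (m, c / 4, eps) := hpos r _ (by simp only; simp only at h1; linarith)
        (by simp only; simp only at h2; linarith) h3 h3'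
      have hihv := ih
      simp only [B7, hn] at *
      set v := f r (m, c / 4, eps) with hv
      have hv1 : v - 1 + 1 = v := tsub_add_cancel_of_le (one_le_iff.2 (pos_iff.1 hvpos))
      obtain ⟨h7, h8, h9⟩ := heps2 v c hvpos h1 h2
      set n := n6 (v - 1) (c / 4) (c / (16 * (v : KK M))) with hndef
      have hmain := h6' (v - 1) (c / 4) (c / (16 * (v : KK M))) (by linarith) (by linarith) h7 h8
      rw [← hndef] at hmain
      obtain ⟨hnpos, hmain⟩ := hmain
      -- the function phi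
      set φ : Wd M → KK M := fun x => if ∀ i < r + 1, x ∈ H i then ψ x - u else 0 with hφ
      have hφR : Rec R0 φ := by fun_prop
      have hφb : ∀ x ∈ Wlt (k + 1) n, -1 ≤ φ x ∧ φ x ≤ 1 := by
        intro x hx
        obtain ⟨ha, hb⟩ := hψ x hx
        simp only [hφ]
        split_ifs
        · constructor <;> linarith
        · constructor <;> linarith
      have happ : ∀ x ∈ Wlt (k + 1) n, ffun (Wlt (k + 1) n) (fun x => (φ x + 1) / 2) x =
          (φ x + 1) / 2 := fun x hx => ffun_apply (R := R0) (by fun_prop) hx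
      have hlast := hins (r + 1) (lt_succ.2 le_rfl)
      have hscφ : c ≤ FW (k + 1) n (fun x => if x ∈ H (r + 1) then φ x else 0) := by
        refine hsc.trans (le_of_eq ?_)
        unfold score
        refine (mean_FW R0 hκ hnpos).congr _ _ fun x hx => ?_
        simp only [hφ]
        by_cases hx1 : x ∈ H (r + 1)
        · by_cases hx2 : ∀ i < r + 1, x ∈ H i
          · have hx3 : ∀ i < r + 1 + 1, x ∈ H i := by
              intro i hi
              rcases (lt_succ.1 hi).lt_or_eq with h | h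
              · exact hx2 i h
              · rw [h]; exact hx1
            rw [if_pos hx3, if_pos hx1, if_pos hx2]
          · have hx3 : ¬ ∀ i < r + 1 + 1, x ∈ H i := fun h =>
              hx2 fun i hi => h i (hi.trans (lt_succ.2 le_rfl))
            rw [if_neg hx3, if_pos hx1, if_neg hx2]
        · have hx3 : ¬ ∀ i < r + 1 + 1, x ∈ H i := fun h => hx1 (h (r + 1) (lt_succ.2 le_rfl))
          rw [if_neg hx3, if_neg hx1]
      obtain ⟨T1, hT1, hT1H, hT1a⟩ := hmain (a.get (r + 1)) hlast.1 (H (r + 1))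
        (ffun (Wlt (k + 1) n) (fun x => (φ x + 1) / 2)) (1 / 2 + c / 4) hlast.2 (by
          intro x hx
          rw [happ x hx]
          obtain ⟨ha, hb⟩ := hφb x hx
          constructor <;> linarith) (by linarith) (by linarith) (by
          have h10 : FW (k + 1) n (fun x => (if x ∈ H (r + 1) then φ x else 0) * (1 / 2) - c / 4) ≤
              score k n (fun x => x ∈ H (r + 1)) (ffun (Wlt (k + 1) n) (fun x => (φ x + 1) / 2))
                (1 / 2 + c / 4) := by
            unfold score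
            refine (mean_FW R0 hκ hnpos).mono (by fun_prop) (by fun_prop) fun x hx => ?_
            rw [happ x hx]
            split_ifs
            · linarith
            · linarith
          rw [(mean_FW R0 hκ hnpos).sub_const (by fun_prop),
            (mean_FW R0 hκ hnpos).mul_const (by fun_prop)] at h10
          linarith)
      rw [hv1] at hT1 hT1H
      -- averages of phi along T1
      have hT1φ : ∀ i < v, c / 4 ≤ havg (W (k + 1) i) (fun z => φ (T1 z)) := by
        intro i hi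
        have hi' : i ≤ v - 1 := lt_succ.1 (by rw [hv1]; exact hi)
        have h10 := hT1a i hi'
        have h11 : havg (W (k + 1) i) (fun z => (ffun (Wlt (k + 1) n) (fun x => (φ x + 1) / 2))
            (T1 z)) = (havg (W (k + 1) i) (fun z => φ (T1 z)) + 1) * (1 / 2) := by
          rw [← (mean_W R0 hκ i).add_const (by fun_prop), ← (mean_W R0 hκ i).mul_const (by fun_prop)]
          refine havg_congr fun z hz => ?_
          rw [happ _ (hT1.1 z (mem_Wlt_iff.2 ⟨i, hi, hz⟩))]
          ring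
        rw [h11] at h10
        have h12 : 2 * (i : KK M) * (c / (16 * (v : KK M))) ≤
            2 * ((v - 1 : M) : KK M) * (c / (16 * (v : KK M))) :=
          mul_le_mul_of_nonneg_right (by
            have : (i : KK M) ≤ ((v - 1 : M) : KK M) := by exact_mod_cast hi'
            linarith) h7.le
        linarith
      -- the induction hypothesis
      have hmemH' : ∀ i z, z ∈ (Wlt (k + 1) v).filter (fun z => T1 z ∈ H i) ↔
          z ∈ Wlt (k + 1) v ∧ T1 z ∈ H i := fun i z => mem_filter (R := R0) (by fun_prop)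
      set H' : FFun M M (FSet M (Wd M)) :=
        ffun (rng (r + 1)) (fun i => (Wlt (k + 1) v).filter (fun z => T1 z ∈ H i)) with hH'
      have hH'app : ∀ i < r + 1, H' i = (Wlt (k + 1) v).filter (fun z => T1 z ∈ H i) := fun i hi =>
        ffun_apply (R := R0) (f := fun i => (Wlt (k + 1) v).filter (fun z => T1 z ∈ H i))
          (by fun_prop) (mem_rng.2 hi)
      have hψapp : ∀ z ∈ Wlt (k + 1) v, ffun (Wlt (k + 1) v) (fun z => ψ (T1 z)) z = ψ (T1 z) :=
        fun z hz => ffun_apply (R := R0) (by fun_prop) hz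
      obtain ⟨T2, hT2, hT2H, hT2a⟩ := ih (m, c / 4, eps, a, H',
        ffun (Wlt (k + 1) v) (fun z => ψ (T1 z)), u) ⟨by simp only; linarith,
        by simp only; linarith, h3, h3', by
          intro i hi
          simp only
          obtain ⟨h10, h11⟩ := hins i (hi.trans (lt_succ.2 le_rfl))
          refine ⟨h10, ?_⟩
          rw [hH'app i hi, ← hv]
          have h12 := (hTC k v n n T1 (fun z => z) hk hT1 (by
            refine ⟨fun z hz => hz, fun w hw => ⟨w, hw, fun c hc => rfl⟩,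
              fun x hx w hw hlen => ⟨w, hw, hlen, fun c hc => rfl⟩,
              fun a ha z hz z' hz' he => he⟩)).2.2 (a.get i) (fun x => x ∈ H i) h10 h11
          intro x hx y hy he hxH
          rw [hmemH'] at hxH ⊢
          exact ⟨hy, h12 x hx y hy he hxH.2⟩, by
          intro z hz
          simp only [← hv] at hz ⊢
          rw [hψapp z hz]
          exact hψ _ (hT1.1 z hz), hu, hu1, by
          simp only [← hv]
          unfold score FW
          refine (mean_rng R0 hvpos).ge_of (by fun_prop) fun i hi => ?_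
          refine (hT1φ i (mem_rng.1 hi)).trans (le_of_eq ?_)
          refine havg_congr fun z hz => ?_
          have hz' : z ∈ Wlt (k + 1) v := mem_Wlt_iff.2 ⟨i, mem_rng.1 hi, hz⟩
          simp only [hφ]
          by_cases hz2 : ∀ i < r + 1, T1 z ∈ H i
          · have hz3 : ∀ i < r + 1, z ∈ H' i := fun i hi => by
              rw [hH'app i hi, hmemH']
              exact ⟨hz', hz2 i hi⟩
            rw [if_pos hz2, if_pos hz3, hψapp z hz']
          · have hz3 : ¬ ∀ i < r + 1, z ∈ H' i := fun h => hz2 fun i hi => by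
              have := h i hi
              rw [hH'app i hi, hmemH'] at this
              exact this.2
            rw [if_neg hz2, if_neg hz3]⟩
      simp only [← hv] at hT2 hT2H hT2a
      have hTapp : ∀ z ∈ Wlt (k + 1) (m + 1), ffun (Wlt (k + 1) (m + 1)) (fun z => T1 (T2 z)) z =
          T1 (T2 z) := fun z hz => ffun_apply (R := R0) (by fun_prop) hz
      refine ⟨ffun (Wlt (k + 1) (m + 1)) (fun z => T1 (T2 z)), ?_, ?_, ?_⟩
      · exact tree_congr (fun z hz => (hTapp z hz).symm) (hTC k (m + 1) v n T2 T1 hk hT2 hT1).1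
      · intro z hz i hi
        rw [hTapp z hz]
        rcases (lt_succ.1 hi).lt_or_eq with h | h
        · have := hT2H z hz i h
          rw [hH'app i h, hmemH'] at this
          exact this.2
        · rw [h]
          exact hT1H _ (hT2.1 z hz)
      · intro i hi
        refine (hT2a i hi).trans (le_of_eq ?_)
        refine havg_congr fun z hz => ?_
        have hz' : z ∈ Wlt (k + 1) (m + 1) := mem_Wlt_iff.2 ⟨i, lt_succ.2 hi, hz⟩
        rw [hTapp z hz', hψapp _ (hT2.1 z hz')]
  intro r m c eps hr h1 h2 h3 h3'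
  refine ⟨hpos _ _ h1 h2 h3 h3', fun a H ψ u hins hψ hu hu1 hsc => ?_⟩
  have hr1 : r - 1 + 1 = r := tsub_add_cancel_of_le (one_le_iff.2 (pos_iff.1 hr))
  have := key (r - 1) (m, c, eps, a, H, ψ, u) ⟨h1, h2, h3, h3', by rw [hr1]; exact hins, hψ, hu, hu1,
    by rw [hr1]; exact hsc⟩
  obtain ⟨T, hT, hTH, hTa⟩ := this
  rw [hr1] at hTH
  exact ⟨T, hT, hTH, hTa⟩

end Pool.Agent.OVW
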