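import Pool.Agent.OVW.StmtsB5c

/-!
# Block B, module TC: composition of trees, inverse images of free and of insensitive sets
-/

namespace Pool.Agent.OVW

open Classical

/-- Module TC. -/
theorem tTC (M : Type) [Arith M] [HasWorld M] : StmtTC M := by
  intro k m n N T T' _ hT hT'
  obtain ⟨h1, h2, h3, h4⟩ := hT
  obtain ⟨g1, g2, g3, g4⟩ := hT'
  refine ⟨⟨fun z hz => g1 _ (h1 z hz), fun w hw => ?_, fun x hx w hw hl => ?_,
    fun a ha z hz z' hz' e => g4 a ha _ (h1 z hz) _ (h1 z' hz') (h4 a ha z hz z' hz' e)⟩,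
    fun E hE x hx w hw hl hc => ?_,
    fun a H ha hH x hx y hy e hx' => hH _ (h1 x hx) _ (h1 y hy) (h4 a ha x hx y hy e) hx'⟩
  · obtain ⟨v, hv, hvc⟩ := h2 w hw
    obtain ⟨v', hv', hvc'⟩ := g2 v hv
    exact ⟨v', hv', fun c hc => by beta_reduce; rw [hvc c hc, hvc' c hc]⟩
  · obtain ⟨v, hv, hl1, hvc⟩ := h3 x hx w hw hl
    obtain ⟨v', hv', hl2, hvc'⟩ := g3 (T x) (h1 x hx) v hv hl1
    exact ⟨v', hv', hl2, fun c hc => by beta_reduce; rw [hvc c hc, hvc' c hc]⟩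
  · obtain ⟨v, hv, hl1, hvc⟩ := h3 x hx w hw hl
    refine hE (T x) (h1 x hx) v hv hl1 ⟨hc.1, fun c hcc => ?_⟩
    rw [← hvc c hcc]
    exact hc.2 c hcc

end Pool.Agent.OVW
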