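import Pool.Agent.OVW.StmtsB14
import Pool.Agent.OVW.B.C51
import Pool.Agent.OVW.B.C52
import Pool.Agent.OVW.B.C53
import Pool.Agent.OVW.B.C54
import Pool.Agent.OVW.B.C55
import Pool.Agent.OVW.B.C56
import Pool.Agent.OVW.B.C57
import Pool.Agent.OVW.B.C58
import Pool.Agent.OVW.B.C5
import Pool.Agent.OVW.B.L5
import Pool.Agent.OVW.B.L61
import Pool.Agent.OVW.B.L62
import Pool.Agent.OVW.B.L6
import Pool.Agent.OVW.B.L7
import Pool.Agent.OVW.B.B02
import Pool.Agent.OVW.B.B03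
import Pool.Agent.OVW.B.B04
import Pool.Agent.OVW.B.TC

/-!
# Block B: Lemma 7 from Lemma 4
-/

namespace Pool.Agent.OVW

variable {M : Type} [Arith M] [HasWorld M]

namespace All7

/-- Lemma 4 for one world. -/
theorem l4 (h : Stmt_B4) (R : Set (M → M)) [IsWorld R] : StmtL4 R := by
  intro k a N hh β Q G L hk ha hβ hh0 hD hQ hG hI hL hc hp
  exact h M R k a hh N β Q G L hk hβ hh0 hD ha hQ hG hI hL hc hp

end All7

/-- Lemma 5. -/
theorem all5 (h : Stmt_B4) (R : Set (M → M)) [IsWorld R] : StmtL5 R := by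
  have h1 := tB01 R
  have h2 := tB02 R
  have h3 := tB03 R
  have h4 := tB04 M
  have h51 := tC51 R h1 h2 h4
  have h52 := tC52 R h1 h2 h51
  have h53 := tC53 R h1 h2 h4
  have h54 := tC54 R h1 (All7.l4 h R)
  have h55 : StmtC55 R := tC55 R h4
  have h56 := tC56 R h3 h55
  have h57 := tC57 R h1 h2 h4 h55
  have h58 := tC58 R h1 h2 h55 h56
  exact tL5 R h2 h1 h4 (tC5 R h4 h51 h52 h53 h54 h55 h56 h57 h58 h1)

/-- Lemma 7. -/
theorem all7 (h : Stmt_B4) (R0 R1 : Set (M → M)) [IsWorld R0] [IsWorld R1] (hR : R0 ⊆ R1)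
    (hj : JumpIn R0 R1) : StmtL7 R0 :=
  tL7 R0 R1 hR hj (tTC M)
    (tL6 R0 R1 hR hj (tB02 R0) (tB04 M) (all5 h R0) (tL61 R0) (tL62 R0))

end Pool.Agent.OVW
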