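import Pool.Agent.OVW.B.Mean

/-! # B03: the sum over the points of a line -/

namespace Pool.Agent.OVW

open Classical

set_option linter.unusedSectionVars false

variable {M : Type} [Arith M] [HasWorld M]

namespace B03

theorem get_pt (x v : Wd M) (d : M) : (x ++ wsing d ++ v).get x.len = d := by
  have h1 : x.len < (x ++ wsing d).len := by
    rw [len_append, len_wsing]
    exact lt_succ.2 le_rfl
  rw [get_append_left h1]
  have h2 := get_append_right (u := x) (v := wsing d) 0
  rw [add_zero, get_wsing] at h2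
  exact h2

theorem pt_mem {κ h : M} {x w : Wd M} (hx : x ∈ Wlt κ h) (hw : w ∈ Wlt (κ + 1) h)
    (hl : x.len + 1 + w.len = h) {d : M} (hd : d < κ) :
    x ++ wsing d ++ wsub κ w d ∈ W κ h := by
  have h1 : x ∈ W κ x.len := mem_W.2 ⟨rfl, (mem_Wlt.1 hx).2⟩
  have h2 : w ∈ W (κ + 1) w.len := mem_W.2 ⟨rfl, (mem_Wlt.1 hw).2⟩
  have h3 : wsub κ w d ∈ W κ w.len := wsub_mem_W h2 hd
  have h4 := append_mem_W (append_mem_W h1 (wsing_mem_W.2 hd)) h3
  rwa [hl] at h4

end B03

theorem tB03 (R : Set (M → M)) [IsWorld R] : StmtB03 R := by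
  intro κ h x w g hκ hg hx hw hl
  have key : hsum (W κ h) (fun t => if ∃ d < κ, t = x ++ wsing d ++ wsub κ w d then g t else 0) =
      hsum (rng κ) (fun d => g (x ++ wsing d ++ wsub κ w d)) := by
    rw [← hsum_filter (R := R) (p := fun t => ∃ d < κ, t = x ++ wsing d ++ wsub κ w d)
      (by fun_prop) hg]
    symm
    refine hsum_bij (R := R) (fun d => x ++ wsing d ++ wsub κ w d) (by fun_prop) (by fun_prop) hg
      ?_ ?_ ?_ (fun _ _ => rfl)
    · intro d hd
      rw [mem_filter (R := R) (by fun_prop)]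
      exact ⟨B03.pt_mem hx hw hl (mem_rng.1 hd), d, mem_rng.1 hd, rfl⟩
    · intro d _ d' _ he
      have h1 := congrArg (fun u : Wd M => u.get x.len) he
      simpa only [B03.get_pt] using h1
    · intro t ht
      rw [mem_filter (R := R) (by fun_prop)] at ht
      obtain ⟨-, d, hd, rfl⟩ := ht
      exact ⟨d, mem_rng.2 hd, rfl⟩
  have h0 : (κ : KK M) ≠ 0 := (cK_pos.2 hκ).ne'
  have h1 : ((hpow κ h : M) : KK M) ≠ 0 := (cK_pos.2 (hpow_pos hκ h)).ne'
  unfold havg
  rw [key, card_W, card_rng]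
  field_simp

end Pool.Agent.OVW
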