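import Pool.Agent.OVW.StmtsB5c

/-! # General lemmas on means -/

namespace Pool.Agent.OVW

open Classical

set_option linter.unusedSectionVars false

variable {M : Type} [Arith M] [HasWorld M] {R : Set (M → M)} [IsWorld R]

/-! ## Indicators -/

theorem ind_true {p : Prop} (h : p) : ind M p = 1 := if_pos h
theorem ind_false {p : Prop} (h : ¬ p) : ind M p = 0 := if_neg h
theorem ind_nonneg (p : Prop) : 0 ≤ ind M p := by
  by_cases h : p
  · rw [ind_true h]; exact zero_le_one
  · rw [ind_false h]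
theorem ind_le_one (p : Prop) : ind M p ≤ 1 := by
  by_cases h : p
  · rw [ind_true h]
  · rw [ind_false h]; exact zero_le_one
theorem ind_mono {p q : Prop} (h : p → q) : ind M p ≤ ind M q := by
  by_cases hp : p
  · rw [ind_true hp, ind_true (h hp)]
  · rw [ind_false hp]; exact ind_nonneg q
theorem ind_congr {p q : Prop} (h : p ↔ q) : ind M p = ind M q := by rw [propext h]
theorem ind_and (p q : Prop) : ind M (p ∧ q) = ind M p * ind M q := by
  by_cases hp : p
  · by_cases hq : q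
    · rw [ind_true ⟨hp, hq⟩, ind_true hp, ind_true hq, one_mul]
    · rw [ind_false (fun h => hq h.2), ind_false hq, mul_zero]
  · rw [ind_false (fun h => hp h.1), ind_false hp, zero_mul]
theorem ind_not (p : Prop) : ind M (¬ p) = 1 - ind M p := by
  by_cases hp : p
  · rw [ind_false (not_not.2 hp), ind_true hp, sub_self]
  · rw [ind_true hp, ind_false hp, sub_zero]
theorem of_ind_pos {p : Prop} (h : 0 < ind M p) : p := by
  by_contra hp
  rw [ind_false hp] at h
  exact lt_irrefl _ h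
theorem hpr_eq_havg_ind {α : Type} [Cod M α] (S : FSet M α) (p : α → Prop) :
    hpr S p = havg S (fun a => ind M (p a)) := rfl

/-! ## Means -/

namespace Mean

variable {Ω : Type} [Cod M Ω] {S : Ω → Prop} {μ : (Ω → KK M) → KK M}

theorem const (h : Mean R S μ) (c : KK M) : μ (fun _ => c) = c := by
  have := h.smul c (fun _ => 1) (by fun_prop)
  simpa [h.one] using this

theorem neg (h : Mean R S μ) {f : Ω → KK M} (hf : Rec R f) : μ (fun x => - f x) = - μ f := by
  have := h.smul (-1) f hf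
  simpa using this

theorem sub (h : Mean R S μ) {f g : Ω → KK M} (hf : Rec R f) (hg : Rec R g) :
    μ (fun x => f x - g x) = μ f - μ g := by
  have := h.add f (fun x => - g x) hf (by fun_prop)
  rw [h.neg hg] at this
  simpa [sub_eq_add_neg] using this

theorem mul_const (h : Mean R S μ) {f : Ω → KK M} (hf : Rec R f) (c : KK M) :
    μ (fun x => f x * c) = μ f * c := by
  have := h.smul c f hf
  simpa only [mul_comm] using this

theorem mono (h : Mean R S μ) {f g : Ω → KK M} (hf : Rec R f) (hg : Rec R g)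
    (hfg : ∀ x, S x → f x ≤ g x) : μ f ≤ μ g := by
  obtain ⟨x, hx, h1⟩ := h.ex (fun x => f x - g x) (by fun_prop)
  rw [h.sub hf hg] at h1
  linarith [hfg x hx]

theorem add_const (h : Mean R S μ) {f : Ω → KK M} (hf : Rec R f) (c : KK M) :
    μ (fun x => f x + c) = μ f + c := by
  rw [h.add f (fun _ => c) hf (by fun_prop), h.const]

theorem sub_const (h : Mean R S μ) {f : Ω → KK M} (hf : Rec R f) (c : KK M) :
    μ (fun x => f x - c) = μ f - c := by
  rw [h.sub hf (by fun_prop), h.const]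

theorem nonneg (h : Mean R S μ) {f : Ω → KK M} (hf : Rec R f) (h0 : ∀ x, S x → 0 ≤ f x) :
    0 ≤ μ f := by
  have := h.mono (f := fun _ => 0) (by fun_prop) hf h0
  rwa [h.const] at this

theorem le_of (h : Mean R S μ) {f : Ω → KK M} (hf : Rec R f) {c : KK M}
    (h0 : ∀ x, S x → f x ≤ c) : μ f ≤ c := by
  have := h.mono (g := fun _ => c) hf (by fun_prop) h0
  rwa [h.const] at this

theorem ge_of (h : Mean R S μ) {f : Ω → KK M} (hf : Rec R f) {c : KK M}
    (h0 : ∀ x, S x → c ≤ f x) : c ≤ μ f := by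
  have := h.mono (f := fun _ => c) (by fun_prop) hf h0
  rwa [h.const] at this

theorem ex_ge (h : Mean R S μ) {f : Ω → KK M} (hf : Rec R f) {c : KK M} (hc : c ≤ μ f) :
    ∃ x, S x ∧ c ≤ f x := by
  obtain ⟨x, hx, h1⟩ := h.ex f hf
  exact ⟨x, hx, hc.trans h1⟩

theorem ex_le (h : Mean R S μ) {f : Ω → KK M} (hf : Rec R f) {c : KK M} (hc : μ f ≤ c) :
    ∃ x, S x ∧ f x ≤ c := by
  obtain ⟨x, hx, h1⟩ := h.ex (fun x => - f x) (by fun_prop)
  rw [h.neg hf] at h1
  exact ⟨x, hx, by linarith⟩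

theorem markov (h : Mean R S μ) {f : Ω → KK M} (hf : Rec R f) {c d : KK M} (hd : 0 ≤ d)
    (h1 : ∀ x, S x → f x ≤ 1) (hc : c + d ≤ μ f) : c ≤ μ (fun x => ind M (d ≤ f x)) := by
  have h2 : μ f ≤ μ (fun x => ind M (d ≤ f x) + d) := by
    refine h.mono hf (by fun_prop) fun x hx => ?_
    by_cases hxd : d ≤ f x
    · rw [ind_true hxd]; linarith [h1 x hx]
    · rw [ind_false hxd]; linarith [not_le.1 hxd]
  rw [h.add_const (f := fun x => ind M (d ≤ f x)) (by fun_prop)] at h2
  linarith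

end Mean

/-! ## Averages over finite sets and words are means -/

theorem mean_havg (R : Set (M → M)) [IsWorld R] {Ω : Type} [Cod M Ω] {S : FSet M Ω}
    (hS : ∃ x, x ∈ S) : Mean R (fun x => x ∈ S) (havg S) where
  congr _ _ h := havg_congr h
  add _ _ hf hg := havg_add hf hg
  smul c _ hf := havg_mul_left c hf
  one := havg_const 1 hS
  ex f hf := exists_le_of_le_havg hf hS le_rfl

theorem mean_W (R : Set (M → M)) [IsWorld R] {κ : M} (hκ : 0 < κ) (l : M) :
    Mean R (fun x => x ∈ W κ l) (havg (W κ l)) := mean_havg R (W_nonempty hκ l)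

theorem mean_rng (R : Set (M → M)) [IsWorld R] {n : M} (hn : 0 < n) :
    Mean R (fun i => i ∈ rng n) (havg (rng n)) := mean_havg R ⟨0, mem_rng.2 hn⟩

theorem mean_FW (R : Set (M → M)) [IsWorld R] {κ n : M} (hκ : 0 < κ) (hn : 0 < n) :
    Mean R (fun x => x ∈ Wlt κ n) (FW κ n) where
  congr f g h := (mean_rng R hn).congr _ _ fun l hl =>
    havg_congr fun x hx => h x (mem_Wlt_iff.2 ⟨l, mem_rng.1 hl, hx⟩)
  add f g hf hg := by
    unfold FW
    rw [← (mean_rng R hn).add _ _ (by fun_prop) (by fun_prop)]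
    exact (mean_rng R hn).congr _ _ fun l _ => (mean_W R hκ l).add _ _ hf hg
  smul c f hf := by
    unfold FW
    rw [← (mean_rng R hn).smul _ _ (by fun_prop)]
    exact (mean_rng R hn).congr _ _ fun l _ => (mean_W R hκ l).smul _ _ hf
  one := ((mean_rng R hn).congr _ _ fun l _ => (mean_W R hκ l).one).trans (mean_rng R hn).one
  ex f hf := by
    obtain ⟨l, hl, h1⟩ := (mean_rng R hn).ex (fun l => havg (W κ l) f) (by fun_prop)
    obtain ⟨x, hx, h2⟩ := (mean_W R hκ l).ex f hf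
    exact ⟨x, mem_Wlt_iff.2 ⟨l, mem_rng.1 hl, hx⟩, h1.trans h2⟩

/-- the mean over the future words -/
theorem mean_nu (R : Set (M → M)) [IsWorld R] (k r : M) {N : M} (hN : 0 < N) :
    Mean R (fun y' => y' ∈ Wlt (k + 1) (r + N) ∧ ∃ y0 ∈ W (k + 1) r, ∃ y ∈ Wlt (k + 1) N, y' = y0 ++ y)
      (nu k r N) := by
  have hκ : 0 < k + 1 := lt_succ.2 (zero_le' k)
  have hS : ∀ y0 ∈ W (k + 1) r, ∀ y ∈ Wlt (k + 1) N, y0 ++ y ∈ Wlt (k + 1) (r + N) := by
    intro y0 hy0 y hy
    obtain ⟨l, hl, hy⟩ := mem_Wlt_iff.1 hy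
    exact mem_Wlt_iff.2 ⟨r + l, add_lt_add_right hl r, append_mem_W hy0 hy⟩
  refine ⟨?_, ?_, ?_, ?_, ?_⟩
  · intro f g h
    exact havg_congr fun y0 hy0 => (mean_FW R hκ hN).congr _ _ fun y hy =>
      h _ ⟨hS y0 hy0 y hy, y0, hy0, y, hy, rfl⟩
  · intro f g hf hg
    unfold nu
    rw [← (mean_W R hκ r).add _ _ (by fun_prop) (by fun_prop)]
    exact havg_congr fun y0 hy0 => (mean_FW R hκ hN).add _ _ (by fun_prop) (by fun_prop)
  · intro c f hf
    unfold nu
    rw [← (mean_W R hκ r).smul _ _ (by fun_prop)]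
    exact havg_congr fun y0 hy0 => (mean_FW R hκ hN).smul _ _ (by fun_prop)
  · exact (havg_congr fun y0 hy0 => (mean_FW R hκ hN).one).trans (mean_W R hκ r).one
  · intro f hf
    obtain ⟨y0, hy0, h1⟩ := (mean_W R hκ r).ex (fun y0 => FW (k + 1) N (fun y => f (y0 ++ y)))
      (by fun_prop)
    obtain ⟨y, hy, h2⟩ := (mean_FW R hκ hN).ex (fun y => f (y0 ++ y)) (by fun_prop)
    exact ⟨y0 ++ y, ⟨hS y0 hy0 y hy, y0, hy0, y, hy, rfl⟩, h1.trans h2⟩

/-- B01 -/
theorem tB01 (R : Set (M → M)) [IsWorld R] : StmtB01 R :=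
  ⟨fun _ _ _ hS => mean_havg R hS, fun _ _ hκ hn => mean_FW R hκ hn⟩

end Pool.Agent.OVW
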